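import Pool.Agent.Lib.PRam.Defs

namespace Pool.Agent.Lib.PRam

open scoped ENNReal

theorem next_eq_none {P : List Instr} {s : Config} (h : P.length ≤ s.pc) : next P s = none := by
  unfold next
  rw [List.getElem?_eq_none h]

/-- runs are unique -/
theorem RunsTo.unique {P : List Instr} {s s₁ s₂ : Config} {T₁ T₂ : ℕ} (h₁ : RunsTo P s T₁ s₁)
    (h₂ : RunsTo P s T₂ s₂) : T₁ = T₂ ∧ s₁ = s₂ := by
  induction h₁ generalizing T₂ with
  | halt s h =>
    cases h₂ with
    | halt _ _ => exact ⟨rfl, rfl⟩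
    | step h' _ => rw [next_eq_none h] at h'; simp at h'
  | step h h' ih =>
    cases h₂ with
    | halt _ h'' => rw [next_eq_none h''] at h; simp at h
    | step h'' h''' =>
      rw [h] at h''
      obtain rfl := Option.some.inj h''
      obtain ⟨rfl, rfl⟩ := ih h'''
      exact ⟨rfl, rfl⟩

/-- add unused coin flips -/
def Config.addCoins (s : Config) (γ : List Bool) : Config := ⟨s.pc, s.reg, s.mem, s.coins ++ γ⟩

theorem next_addCoins {P : List Instr} {s s' : Config} (h : next P s = some s') (γ : List Bool) :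
    next P (s.addCoins γ) = some (s'.addCoins γ) := by
  unfold next at h ⊢
  have hpc : (s.addCoins γ).pc = s.pc := rfl
  rw [hpc]
  rcases hP : P[s.pc]? with _ | i
  · rw [hP] at h; simp at h
  · rw [hP] at h
    cases i with
    | coin d =>
      simp only at h ⊢
      rcases hc : s.coins with _ | ⟨b, bs⟩
      · rw [hc] at h; simp at h
      · rw [hc] at h
        simp only at h
        have hc' : (s.addCoins γ).coins = b :: (bs ++ γ) := by simp [Config.addCoins, hc]
        rw [hc']
        simp only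
        rw [← Option.some.inj h]
        rfl
    | _ =>
      simp only at h ⊢
      rw [← Option.some.inj h]
      rfl

theorem cost_addCoins (P : List Instr) (s : Config) (γ : List Bool) :
    cost P (s.addCoins γ) = cost P s := rfl

theorem RunsTo.addCoins {P : List Instr} {s s' : Config} {T : ℕ} (h : RunsTo P s T s')
    (γ : List Bool) : RunsTo P (s.addCoins γ) T (s'.addCoins γ) := by
  induction h with
  | halt s h => exact .halt _ h
  | step h _ ih =>
    rw [← cost_addCoins P _ γ]
    exact .step (next_addCoins h γ) ih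

/-- cost and output of the run with coin flips `β` are unique -/
theorem HaltsOn.unique {P : List Instr} {x : List ℤ} {β : List Bool} {T₁ T₂ : ℕ} {y₁ y₂ : ℤ}
    (h₁ : HaltsOn P x β T₁ y₁) (h₂ : HaltsOn P x β T₂ y₂) : T₁ = T₂ ∧ y₁ = y₂ := by
  obtain ⟨s₁, r₁, c₁, rfl⟩ := h₁
  obtain ⟨s₂, r₂, c₂, rfl⟩ := h₂
  obtain ⟨h, rfl⟩ := r₁.unique r₂
  exact ⟨h, rfl⟩

/-- no halting sequence of coin flips extends another one -/
theorem HaltsOn.prefix_free {P : List Instr} {x : List ℤ} {β γ : List Bool} {T₁ T₂ : ℕ}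
    {y₁ y₂ : ℤ} (h₁ : HaltsOn P x β T₁ y₁) (h₂ : HaltsOn P x (β ++ γ) T₂ y₂) : γ = [] := by
  obtain ⟨s₁, r₁, c₁, rfl⟩ := h₁
  obtain ⟨s₂, r₂, c₂, rfl⟩ := h₂
  have h := (r₁.addCoins γ).unique r₂
  have : (s₁.addCoins γ).coins = s₂.coins := by rw [h.2]
  simpa [Config.addCoins, c₁, c₂] using this

/-- Kraft inequality, finite prefix-free sets -/
theorem kraft_finset (n : ℕ) : ∀ (S : Finset (List Bool)), (∀ w ∈ S, w.length ≤ n) →
    (∀ β γ : List Bool, β ∈ S → β ++ γ ∈ S → γ = []) →
    ∑ w ∈ S, (1 / 2 : ℝ≥0∞) ^ w.length ≤ 1 := by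
  induction n with
  | zero =>
    intro S hS _
    have hsub : S ⊆ {[]} := fun w hw => by
      have := hS w hw
      simpa using List.length_eq_zero_iff.mp (Nat.le_zero.mp this)
    calc ∑ w ∈ S, (1 / 2 : ℝ≥0∞) ^ w.length ≤ ∑ w ∈ {[]}, (1 / 2 : ℝ≥0∞) ^ w.length :=
          Finset.sum_le_sum_of_subset hsub
      _ = 1 := by simp
  | succ n ih =>
    intro S hS hpf
    by_cases h0 : [] ∈ S
    · have hsub : S ⊆ {[]} := fun w hw => by
        have := hpf [] w h0 (by simpa using hw)
        simpa using this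
      calc ∑ w ∈ S, (1 / 2 : ℝ≥0∞) ^ w.length ≤ ∑ w ∈ {[]}, (1 / 2 : ℝ≥0∞) ^ w.length :=
            Finset.sum_le_sum_of_subset hsub
        _ = 1 := by simp
    · have hinj : ∀ b : Bool, Function.Injective (List.cons b) := fun b u v h => by simpa using h
      let S' : Bool → Finset (List Bool) := fun b => S.preimage (List.cons b) (hinj b).injOn
      have hmem : ∀ b w, w ∈ S' b ↔ b :: w ∈ S := fun b w => by simp [S']
      have hS' : ∀ b, ∑ w ∈ S' b, (1 / 2 : ℝ≥0∞) ^ w.length ≤ 1 := by
        intro b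
        apply ih
        · intro w hw
          have := hS _ ((hmem b w).mp hw)
          simpa using this
        · intro β γ hβ hβγ
          exact hpf (b :: β) γ ((hmem b β).mp hβ) (by simpa using (hmem b _).mp hβγ)
      have hcov : S ⊆ (S' true).map ⟨_, hinj true⟩ ∪ (S' false).map ⟨_, hinj false⟩ := by
        intro w hw
        rcases w with _ | ⟨b, w⟩
        · exact absurd hw h0
        · cases b
          · exact Finset.mem_union_right _
              (Finset.mem_map.mpr ⟨w, (hmem false w).mpr hw, rfl⟩)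
          · exact Finset.mem_union_left _
              (Finset.mem_map.mpr ⟨w, (hmem true w).mpr hw, rfl⟩)
      have hpart : ∀ b, ∑ w ∈ (S' b).map ⟨_, hinj b⟩, (1 / 2 : ℝ≥0∞) ^ w.length ≤ 1 / 2 := by
        intro b
        rw [Finset.sum_map]
        simp only [Function.Embedding.coeFn_mk, List.length_cons, pow_succ]
        rw [← Finset.sum_mul]
        calc (∑ w ∈ S' b, (1 / 2 : ℝ≥0∞) ^ w.length) * (1 / 2) ≤ 1 * (1 / 2) := by
              gcongr
              exact hS' b
          _ = 1 / 2 := one_mul _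
      calc ∑ w ∈ S, (1 / 2 : ℝ≥0∞) ^ w.length
          ≤ ∑ w ∈ (S' true).map ⟨_, hinj true⟩ ∪ (S' false).map ⟨_, hinj false⟩,
              (1 / 2 : ℝ≥0∞) ^ w.length := Finset.sum_le_sum_of_subset hcov
        _ ≤ ∑ w ∈ (S' true).map ⟨_, hinj true⟩, (1 / 2 : ℝ≥0∞) ^ w.length +
              ∑ w ∈ (S' false).map ⟨_, hinj false⟩, (1 / 2 : ℝ≥0∞) ^ w.length := by
            rw [← Finset.sum_union_inter]
            exact le_self_add
        _ ≤ 1 / 2 + 1 / 2 := add_le_add (hpart true) (hpart false)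
        _ = 1 := ENNReal.add_halves 1

open Classical in
/-- Kraft inequality for prefix-free sets of bit strings -/
theorem kraft (H : Set (List Bool)) (hH : ∀ β γ : List Bool, β ∈ H → β ++ γ ∈ H → γ = []) :
    ∑' β : List Bool, (if β ∈ H then (1 / 2 : ℝ≥0∞) ^ β.length else 0) ≤ 1 := by
  rw [ENNReal.tsum_eq_iSup_sum]
  refine iSup_le fun S => ?_
  rw [← Finset.sum_filter]
  refine kraft_finset ((S.filter (· ∈ H)).sup List.length) _ (fun w hw => Finset.le_sup hw) ?_
  intro β γ h₁ h₂
  exact hH β γ (Finset.mem_filter.mp h₁).2 (Finset.mem_filter.mp h₂).2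

/-- A family of halting runs of total probability one contains all halting runs. -/
theorem haltsOn_mem_range {P : List Instr} {x : List ℤ} {ι : Type*} {F : ι → List Bool}
    {T : ι → ℕ} {y : ι → ℤ} (hF : Function.Injective F)
    (h : ∀ i, HaltsOn P x (F i) (T i) (y i))
    (hsum : ∑' i, (1 / 2 : ℝ≥0∞) ^ (F i).length = 1) {β : List Bool} {T' : ℕ} {y' : ℤ}
    (hβ : HaltsOn P x β T' y') : β ∈ Set.range F := by
  classical
  by_contra hn
  let H : Set (List Bool) := {γ | ∃ T y, HaltsOn P x γ T y}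
  have hk := kraft H (by
    rintro β γ ⟨T₁, y₁, h₁⟩ ⟨T₂, y₂, h₂⟩
    exact h₁.prefix_free h₂)
  have h1 : ∑' γ : List Bool, (if γ ∈ Set.range F then (1 / 2 : ℝ≥0∞) ^ γ.length else 0) = 1 := by
    refine Eq.trans ?_ hsum
    rw [← hF.tsum_eq (f := fun γ => if γ ∈ Set.range F then
      (1 / 2 : ℝ≥0∞) ^ γ.length else 0)]
    · exact tsum_congr fun i => by simp
    · intro γ hγ
      by_contra hc
      exact hγ (if_neg hc)
  have h2 : ∑' γ : List Bool, ((if γ ∈ Set.range F then (1 / 2 : ℝ≥0∞) ^ γ.length else 0) +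
      (if γ = β then (1 / 2 : ℝ≥0∞) ^ β.length else 0)) ≤ 1 := by
    refine le_trans (ENNReal.tsum_le_tsum fun γ => ?_) hk
    by_cases hγ : γ = β
    · subst hγ
      have : γ ∈ H := ⟨T', y', hβ⟩
      simp [hn, this]
    · by_cases hr : γ ∈ Set.range F
      · obtain ⟨i, rfl⟩ := hr
        have : F i ∈ H := ⟨T i, y i, h i⟩
        simp [hγ, this]
      · simp [hγ, hr]
  rw [ENNReal.tsum_add, h1, tsum_ite_eq] at h2
  have h3 : (0 : ℝ≥0∞) < (1 / 2 : ℝ≥0∞) ^ β.length := by
    apply ENNReal.pow_pos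
    simp
  have h4 : (1 : ℝ≥0∞) < 1 + (1 / 2 : ℝ≥0∞) ^ β.length :=
    ENNReal.lt_add_right ENNReal.one_ne_top h3.ne'
  exact absurd h2 (not_le.mpr h4)

open Classical in
/-- The output law, computed from a family of halting runs of total probability one. -/
theorem outProb_eq {P : List Instr} {x : List ℤ} {ι : Type*} {F : ι → List Bool}
    {T : ι → ℕ} {y : ι → ℤ} (hF : Function.Injective F)
    (h : ∀ i, HaltsOn P x (F i) (T i) (y i))
    (hsum : ∑' i, (1 / 2 : ℝ≥0∞) ^ (F i).length = 1) (z : ℤ) :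
    outProb P x z = ∑' i, if y i = z then (1 / 2 : ℝ≥0∞) ^ (F i).length else 0 := by
  unfold outProb
  rw [← hF.tsum_eq]
  · refine tsum_congr fun i => ?_
    by_cases hz : y i = z
    · have : ∃ T, HaltsOn P x (F i) T z := ⟨T i, hz ▸ h i⟩
      simp [hz, this]
    · have : ¬ ∃ T, HaltsOn P x (F i) T z := by
        rintro ⟨T', h'⟩
        exact hz ((h i).unique h').2
      simp [hz, this]
  · intro β hβ
    have : ∃ T, HaltsOn P x β T z := by
      by_contra hc
      simp [hc] at hβ
    obtain ⟨T', h'⟩ := this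
    exact haltsOn_mem_range hF h hsum h'

/-- The expected cost, computed from a family of halting runs of total probability one. -/
theorem expCost_eq {P : List Instr} {x : List ℤ} {ι : Type*} {F : ι → List Bool}
    {T : ι → ℕ} {y : ι → ℤ} (hF : Function.Injective F)
    (h : ∀ i, HaltsOn P x (F i) (T i) (y i))
    (hsum : ∑' i, (1 / 2 : ℝ≥0∞) ^ (F i).length = 1) :
    expCost P x = ∑' i, (T i : ℝ≥0∞) * (1 / 2) ^ (F i).length := by
  unfold expCost
  rw [← hF.tsum_eq]
  · refine tsum_congr fun i => ?_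
    apply le_antisymm
    · refine iSup_le fun T' => iSup_le fun y' => iSup_le fun h' => ?_
      rw [((h i).unique h').1]
    · exact le_iSup_of_le (T i) (le_iSup_of_le (y i) (le_iSup_of_le (h i) le_rfl))
  · intro β hβ
    by_contra hc
    apply hβ
    have hno : ∀ T' y', ¬ HaltsOn P x β T' y' :=
      fun T' y' h' => hc (haltsOn_mem_range hF h hsum h')
    simp only [ENNReal.iSup_eq_zero]
    exact fun T' y' h' => absurd h' (hno T' y')

/-- Upper bound for the expected cost from a family of halting runs of total probability one. -/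
theorem expCost_le {P : List Instr} {x : List ℤ} {ι : Type*} {F : ι → List Bool}
    {T B : ι → ℕ} {y : ι → ℤ} (hF : Function.Injective F)
    (h : ∀ i, HaltsOn P x (F i) (T i) (y i)) (hB : ∀ i, T i ≤ B i)
    (hsum : ∑' i, (1 / 2 : ℝ≥0∞) ^ (F i).length = 1) :
    expCost P x ≤ ∑' i, (B i : ℝ≥0∞) * (1 / 2) ^ (F i).length := by
  rw [expCost_eq hF h hsum]
  refine ENNReal.tsum_le_tsum fun i => ?_
  gcongr
  exact hB i

/-- A random computation: it consumes coin flips and then delivers a value (`F i` is the block of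
coin flips, `v i` the value).  Total probability of two computations run one after the other. -/
theorem tsum_append {ι : Type*} {κ : ι → Type*} (F : ι → List Bool) (G : ∀ i, κ i → List Bool)
    (hF : ∑' i, (1 / 2 : ℝ≥0∞) ^ (F i).length = 1)
    (hG : ∀ i, ∑' j, (1 / 2 : ℝ≥0∞) ^ (G i j).length = 1) :
    ∑' p : (Σ i, κ i), (1 / 2 : ℝ≥0∞) ^ (F p.1 ++ G p.1 p.2).length = 1 := by
  rw [ENNReal.tsum_sigma (fun i j => (1 / 2 : ℝ≥0∞) ^ (F i ++ G i j).length)]
  simp only [List.length_append, pow_add]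
  simp_rw [ENNReal.tsum_mul_left, hG, mul_one]
  exact hF

/-- all bit strings of length `n`: total probability one -/
theorem tsum_vector (n : ℕ) :
    ∑' b : List.Vector Bool n, (1 / 2 : ℝ≥0∞) ^ b.toList.length = 1 := by
  rw [tsum_fintype]
  simp only [List.Vector.toList_length, Finset.sum_const, Finset.card_univ, card_vector,
    Fintype.card_bool, nsmul_eq_mul, Nat.cast_pow, Nat.cast_ofNat]
  rw [← mul_pow, one_div, ENNReal.mul_inv_cancel (by simp) (by simp), one_pow]

end Pool.Agent.Lib.PRam
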