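import Mathlib

namespace Pool.Agent.Lib.PRam

open scoped ENNReal

/-- Instructions of a probabilistic random-access machine with registers `r[0], r[1], …` and memory
cells `m[0], m[1], …`, all holding integers.  Program lines are numbered from `0`. -/
inductive Instr where
  /-- `r[d] := c` -/
  | const (d : ℕ) (c : ℤ)
  /-- `r[d] := r[a] + r[b]` -/
  | add (d a b : ℕ)
  /-- `r[d] := r[a] - r[b]` -/
  | sub (d a b : ℕ)
  /-- `r[d] := r[a] * r[b]` -/
  | mul (d a b : ℕ)
  /-- `r[d] := r[a] / r[b]`, the quotient of the division with remainder in `[0, |r[b]|)` (and `0` if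
  `r[b] = 0`) -/
  | div (d a b : ℕ)
  /-- `r[d] := m[max r[a] 0]` -/
  | load (d a : ℕ)
  /-- `m[max r[a] 0] := r[b]` -/
  | store (a b : ℕ)
  /-- if `r[a] = 0` then go to line `l`, else to the next line -/
  | jz (a l : ℕ)
  /-- if `r[a] < 0` then go to line `l`, else to the next line -/
  | jneg (a l : ℕ)
  /-- go to line `l` -/
  | jmp (l : ℕ)
  /-- `r[d] :=` the next fair coin flip (`1` for heads, `0` for tails) -/
  | coin (d : ℕ)

/-- A configuration: the program counter, the contents of the registers and of the memory, and the
results of the coin flips not used yet. -/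
structure Config where
  pc : ℕ
  reg : ℕ → ℤ
  mem : ℕ → ℤ
  coins : List Bool

/-- One step of the program `P`; `none` if the machine has halted (the program counter is outside
`P`), or if a coin flip is asked for and `s.coins` is used up. -/
def next (P : List Instr) (s : Config) : Option Config :=
  match P[s.pc]? with
  | none => none
  | some (.const d c) => some ⟨s.pc + 1, Function.update s.reg d c, s.mem, s.coins⟩
  | some (.add d a b) =>
    some ⟨s.pc + 1, Function.update s.reg d (s.reg a + s.reg b), s.mem, s.coins⟩
  | some (.sub d a b) =>
    some ⟨s.pc + 1, Function.update s.reg d (s.reg a - s.reg b), s.mem, s.coins⟩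
  | some (.mul d a b) =>
    some ⟨s.pc + 1, Function.update s.reg d (s.reg a * s.reg b), s.mem, s.coins⟩
  | some (.div d a b) =>
    some ⟨s.pc + 1, Function.update s.reg d (s.reg a / s.reg b), s.mem, s.coins⟩
  | some (.load d a) =>
    some ⟨s.pc + 1, Function.update s.reg d (s.mem (s.reg a).toNat), s.mem, s.coins⟩
  | some (.store a b) =>
    some ⟨s.pc + 1, s.reg, Function.update s.mem (s.reg a).toNat (s.reg b), s.coins⟩
  | some (.jz a l) => some ⟨if s.reg a = 0 then l else s.pc + 1, s.reg, s.mem, s.coins⟩
  | some (.jneg a l) => some ⟨if s.reg a < 0 then l else s.pc + 1, s.reg, s.mem, s.coins⟩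
  | some (.jmp l) => some ⟨l, s.reg, s.mem, s.coins⟩
  | some (.coin d) =>
    match s.coins with
    | [] => none
    | b :: bs => some ⟨s.pc + 1, Function.update s.reg d (if b then 1 else 0), s.mem, bs⟩

/-- The number of binary digits of `|v|`. -/
def size (v : ℤ) : ℕ := Nat.size v.natAbs

/-- The cost of the instruction executed in the configuration `s`: one plus the number of binary
digits of the numbers it works on (for a multiplication or a division, the product of the two
lengths). -/
def cost (P : List Instr) (s : Config) : ℕ :=
  match P[s.pc]? with
  | none => 0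
  | some (.const _ c) => 1 + size c
  | some (.add _ a b) => 1 + size (s.reg a) + size (s.reg b)
  | some (.sub _ a b) => 1 + size (s.reg a) + size (s.reg b)
  | some (.mul _ a b) => (1 + size (s.reg a)) * (1 + size (s.reg b))
  | some (.div _ a b) => (1 + size (s.reg a)) * (1 + size (s.reg b))
  | some (.load _ a) => 1 + size (s.reg a) + size (s.mem (s.reg a).toNat)
  | some (.store a b) => 1 + size (s.reg a) + size (s.reg b)
  | some (.jz a _) => 1 + size (s.reg a)
  | some (.jneg a _) => 1 + size (s.reg a)
  | some (.jmp _) => 1
  | some (.coin _) => 1

/-- `RunsTo P s T s'`: started in `s`, the program `P` halts in `s'`, and the steps up to then have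
total cost `T`. -/
inductive RunsTo (P : List Instr) : Config → ℕ → Config → Prop
  | halt (s : Config) (h : P.length ≤ s.pc) : RunsTo P s 0 s
  | step {s s₁ s' : Config} {T : ℕ} (h : next P s = some s₁) (h' : RunsTo P s₁ T s') :
      RunsTo P s (cost P s + T) s'

/-- The initial configuration on the input `x` with coin flips `β`: register `0` holds the length of
`x`, memory cell `i` holds the `i`-th entry of `x`, every other register and memory cell holds
`0`. -/
def initial (x : List ℤ) (β : List Bool) : Config :=
  ⟨0, fun i => if i = 0 then (x.length : ℤ) else 0, fun i => x.getD i 0, β⟩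

/-- On the input `x`, if the coin flips come out as `β` then `P` uses exactly these flips and halts,
with total cost `T` and output `y` (the content of register `0`). -/
def HaltsOn (P : List Instr) (x : List ℤ) (β : List Bool) (T : ℕ) (y : ℤ) : Prop :=
  ∃ s' : Config, RunsTo P (initial x β) T s' ∧ s'.coins = [] ∧ s'.reg 0 = y

open Classical in
/-- The probability that `P` on the input `x` halts with output `y`: the sum of `2 ^ (-|β|)` over
all sequences `β` of coin flips after which `P` halts with output `y`. -/
noncomputable def outProb (P : List Instr) (x : List ℤ) (y : ℤ) : ℝ≥0∞ :=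
  ∑' β : List Bool, if ∃ T, HaltsOn P x β T y then (1 / 2) ^ β.length else 0

/-- The expectation of the total cost of the run of `P` on the input `x` (runs which do not halt
are not counted): the sum of `T * 2 ^ (-|β|)` over all sequences `β` of coin flips after which `P`
halts, `T` being the cost of that run. -/
noncomputable def expCost (P : List Instr) (x : List ℤ) : ℝ≥0∞ :=
  ∑' β : List Bool, ⨆ (T : ℕ) (y : ℤ) (_ : HaltsOn P x β T y), (T : ℝ≥0∞) * (1 / 2) ^ β.length

end Pool.Agent.Lib.PRam
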