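import Pool.Agent.Lib.PRam.Defs

namespace Pool.Agent.Lib.PRam

inductive Expr where
  | lit (c : ℤ)
  | var (r : ℕ)
  | add (a b : Expr)
  | sub (a b : Expr)
  | mul (a b : Expr)
  | div (a b : Expr)
  | load (a : Expr)

structure St where
  reg : ℕ → ℤ
  mem : ℕ → ℤ

def St.set (σ : St) (d : ℕ) (v : ℤ) : St := ⟨Function.update σ.reg d v, σ.mem⟩
def St.put (σ : St) (a : ℕ) (v : ℤ) : St := ⟨σ.reg, Function.update σ.mem a v⟩

def Bdd (W : ℕ) (σ : St) : Prop := (∀ r, (σ.reg r).natAbs ≤ W) ∧ ∀ a, (σ.mem a).natAbs ≤ W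

def Expr.eval (σ : St) : Expr → ℤ
  | .lit c => c
  | .var r => σ.reg r
  | .add a b => a.eval σ + b.eval σ
  | .sub a b => a.eval σ - b.eval σ
  | .mul a b => a.eval σ * b.eval σ
  | .div a b => a.eval σ / b.eval σ
  | .load a => σ.mem (a.eval σ).toNat

def Expr.ok (W : ℕ) (σ : St) : Expr → Prop
  | .lit c => c.natAbs ≤ W
  | .var _ => True
  | .add a b => a.ok W σ ∧ b.ok W σ ∧ (a.eval σ + b.eval σ).natAbs ≤ W
  | .sub a b => a.ok W σ ∧ b.ok W σ ∧ (a.eval σ - b.eval σ).natAbs ≤ W
  | .mul a b => a.ok W σ ∧ b.ok W σ ∧ (a.eval σ * b.eval σ).natAbs ≤ W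
  | .div a b => a.ok W σ ∧ b.ok W σ
  | .load a => a.ok W σ

def Expr.size : Expr → ℕ
  | .lit _ => 1
  | .var _ => 2
  | .add a b => a.size + b.size + 1
  | .sub a b => a.size + b.size + 1
  | .mul a b => a.size + b.size + 1
  | .div a b => a.size + b.size + 1
  | .load a => a.size + 1

def Expr.vars (K : ℕ) : Expr → Prop
  | .lit _ => True
  | .var r => r < K
  | .add a b => a.vars K ∧ b.vars K
  | .sub a b => a.vars K ∧ b.vars K
  | .mul a b => a.vars K ∧ b.vars K
  | .div a b => a.vars K ∧ b.vars K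
  | .load a => a.vars K

theorem Expr.eval_le {W : ℕ} {σ : St} (hσ : Bdd W σ) :
    ∀ (e : Expr), e.ok W σ → (e.eval σ).natAbs ≤ W
  | .lit _, h => h
  | .var r, _ => hσ.1 r
  | .add _ _, h => h.2.2
  | .sub _ _, h => h.2.2
  | .mul _ _, h => h.2.2
  | .div a _, h => (Int.natAbs_ediv_le_natAbs _ _).trans (a.eval_le hσ h.1)
  | .load _, _ => hσ.2 _

/-- Structured programs.  `ite e p q`: if `e ≠ 0` then `p` else `q`; `ifpos e p q`: if `0 < e` then
`p` else `q`; `loop e p`: while `e ≠ 0` do `p`; `whilepos e p`: while `0 < e` do `p`. -/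
inductive Cmd where
  | skip
  | assign (d : ℕ) (e : Expr)
  | store (a v : Expr)
  | coin (d : ℕ)
  | seq (p q : Cmd)
  | ite (e : Expr) (p q : Cmd)
  | ifpos (e : Expr) (p q : Cmd)
  | loop (e : Expr) (p : Cmd)
  | whilepos (e : Expr) (p : Cmd)

def Cmd.vars (K : ℕ) : Cmd → Prop
  | .skip => True
  | .assign d e => d < K ∧ e.vars K
  | .store a v => a.vars K ∧ v.vars K
  | .coin d => d < K
  | .seq p q => p.vars K ∧ q.vars K
  | .ite e p q => e.vars K ∧ p.vars K ∧ q.vars K
  | .ifpos e p q => e.vars K ∧ p.vars K ∧ q.vars K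
  | .loop e p => e.vars K ∧ p.vars K
  | .whilepos e p => e.vars K ∧ p.vars K

/-- `Exec W c σ β t σ'`: the command `c` started in `σ` uses the coin flips `β`, ends in `σ'`, and
the compiled program makes at most `t` steps; all values stay at most `W` in absolute value. -/
inductive Exec (W : ℕ) : Cmd → St → List Bool → ℕ → St → Prop
  | skip (σ : St) : Exec W .skip σ [] 0 σ
  | assign (σ : St) (d : ℕ) (e : Expr) (h : e.ok W σ) :
      Exec W (.assign d e) σ [] (e.size + 2) (σ.set d (e.eval σ))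
  | store (σ : St) (a v : Expr) (ha : a.ok W σ) (hv : v.ok W σ) :
      Exec W (.store a v) σ [] (a.size + v.size + 1) (σ.put (a.eval σ).toNat (v.eval σ))
  | coin (σ : St) (d : ℕ) (b : Bool) :
      Exec W (.coin d) σ [b] 1 (σ.set d (if b then 1 else 0))
  | seq {p q : Cmd} {σ σ₁ σ₂ : St} {β₁ β₂ : List Bool} {t₁ t₂ : ℕ} (h₁ : Exec W p σ β₁ t₁ σ₁)
      (h₂ : Exec W q σ₁ β₂ t₂ σ₂) : Exec W (.seq p q) σ (β₁ ++ β₂) (t₁ + t₂) σ₂
  | iteT {e : Expr} {p q : Cmd} {σ σ' : St} {β : List Bool} {t : ℕ} (h : e.ok W σ)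
      (he : e.eval σ ≠ 0) (h₁ : Exec W p σ β t σ') :
      Exec W (.ite e p q) σ β (e.size + 1 + t + 1) σ'
  | iteF {e : Expr} {p q : Cmd} {σ σ' : St} {β : List Bool} {t : ℕ} (h : e.ok W σ)
      (he : e.eval σ = 0) (h₁ : Exec W q σ β t σ') :
      Exec W (.ite e p q) σ β (e.size + 1 + t) σ'
  | ifposT {e : Expr} {p q : Cmd} {σ σ' : St} {β : List Bool} {t : ℕ} (h : e.ok W σ)
      (he : 0 < e.eval σ) (h₁ : Exec W p σ β t σ') :
      Exec W (.ifpos e p q) σ β (e.size + 2 + t + 1) σ'
  | ifposF {e : Expr} {p q : Cmd} {σ σ' : St} {β : List Bool} {t : ℕ} (h : e.ok W σ)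
      (he : e.eval σ ≤ 0) (h₁ : Exec W q σ β t σ') :
      Exec W (.ifpos e p q) σ β (e.size + 2 + t) σ'
  | loopF {e : Expr} {p : Cmd} {σ : St} (h : e.ok W σ) (he : e.eval σ = 0) :
      Exec W (.loop e p) σ [] (e.size + 1) σ
  | loopT {e : Expr} {p : Cmd} {σ σ₁ σ₂ : St} {β₁ β₂ : List Bool} {t₁ t₂ : ℕ} (h : e.ok W σ)
      (he : e.eval σ ≠ 0) (h₁ : Exec W p σ β₁ t₁ σ₁) (h₂ : Exec W (.loop e p) σ₁ β₂ t₂ σ₂) :
      Exec W (.loop e p) σ (β₁ ++ β₂) (e.size + 1 + t₁ + 1 + t₂) σ₂
  | whileposF {e : Expr} {p : Cmd} {σ : St} (h : e.ok W σ) (he : e.eval σ ≤ 0) :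
      Exec W (.whilepos e p) σ [] (e.size + 2) σ
  | whileposT {e : Expr} {p : Cmd} {σ σ₁ σ₂ : St} {β₁ β₂ : List Bool} {t₁ t₂ : ℕ} (h : e.ok W σ)
      (he : 0 < e.eval σ) (h₁ : Exec W p σ β₁ t₁ σ₁) (h₂ : Exec W (.whilepos e p) σ₁ β₂ t₂ σ₂) :
      Exec W (.whilepos e p) σ (β₁ ++ β₂) (e.size + 2 + t₁ + 1 + t₂) σ₂

theorem Bdd.set {W : ℕ} {σ : St} (h : Bdd W σ) {d : ℕ} {v : ℤ} (hv : v.natAbs ≤ W) :
    Bdd W (σ.set d v) := by
  refine ⟨fun r => ?_, h.2⟩
  simp only [St.set, Function.update_apply]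
  split_ifs
  · exact hv
  · exact h.1 r

theorem Bdd.put {W : ℕ} {σ : St} (h : Bdd W σ) {d : ℕ} {v : ℤ} (hv : v.natAbs ≤ W) :
    Bdd W (σ.put d v) := by
  refine ⟨h.1, fun r => ?_⟩
  simp only [St.put, Function.update_apply]
  split_ifs
  · exact hv
  · exact h.2 r

theorem coin_natAbs {W : ℕ} (hW : 1 ≤ W) (b : Bool) : (if b then (1 : ℤ) else 0).natAbs ≤ W := by
  cases b <;> simp [hW]

theorem Exec.bdd {W : ℕ} {c : Cmd} {σ σ' : St} {β : List Bool} {t : ℕ} (hW : 1 ≤ W)
    (h : Exec W c σ β t σ') : Bdd W σ → Bdd W σ' := by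
  induction h with
  | skip σ => exact id
  | assign σ d e h => exact fun hb => hb.set (e.eval_le hb h)
  | store σ a v ha hv => exact fun hb => hb.put (v.eval_le hb hv)
  | coin σ d b => exact fun hb => hb.set (coin_natAbs hW b)
  | seq _ _ ih₁ ih₂ => exact fun hb => ih₂ (ih₁ hb)
  | iteT _ _ _ ih => exact ih
  | iteF _ _ _ ih => exact ih
  | ifposT _ _ _ ih => exact ih
  | ifposF _ _ _ ih => exact ih
  | loopF => exact id
  | loopT _ _ _ _ ih₁ ih₂ => exact fun hb => ih₂ (ih₁ hb)
  | whileposF => exact id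
  | whileposT _ _ _ _ ih₁ ih₂ => exact fun hb => ih₂ (ih₁ hb)

/-! ### Compilation -/

def compE (k : ℕ) : Expr → List Instr
  | .lit c => [.const k c]
  | .var r => [.const k 0, .add k r k]
  | .add a b => compE k a ++ compE (k + 1) b ++ [.add k k (k + 1)]
  | .sub a b => compE k a ++ compE (k + 1) b ++ [.sub k k (k + 1)]
  | .mul a b => compE k a ++ compE (k + 1) b ++ [.mul k k (k + 1)]
  | .div a b => compE k a ++ compE (k + 1) b ++ [.div k k (k + 1)]
  | .load a => compE k a ++ [.load k k]

theorem compE_length (k : ℕ) (e : Expr) : (compE k e).length = e.size := by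
  induction e generalizing k with
  | lit c => rfl
  | var r => rfl
  | add a b iha ihb => simp [compE, Expr.size, iha, ihb]; omega
  | sub a b iha ihb => simp [compE, Expr.size, iha, ihb]; omega
  | mul a b iha ihb => simp [compE, Expr.size, iha, ihb]; omega
  | div a b iha ihb => simp [compE, Expr.size, iha, ihb]; omega
  | load a iha => simp [compE, Expr.size, iha]

def compC (K off : ℕ) : Cmd → List Instr
  | .skip => []
  | .assign d e => compE K e ++ [.const (K + 1) 0, .add d K (K + 1)]
  | .store a v => compE K a ++ compE (K + 1) v ++ [.store K (K + 1)]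
  | .coin d => [.coin d]
  | .seq p q => compC K off p ++ compC K (off + (compC K off p).length) q
  | .ite e p q =>
      let P := compC K (off + e.size + 1) p
      let Q := compC K (off + e.size + 1 + P.length + 1) q
      compE K e ++ [.jz K (off + e.size + 1 + P.length + 1)] ++ P ++
        [.jmp (off + e.size + 1 + P.length + 1 + Q.length)] ++ Q
  | .ifpos e p q =>
      let P := compC K (off + e.size + 2) p
      let Q := compC K (off + e.size + 2 + P.length + 1) q
      compE K e ++ [.jz K (off + e.size + 2 + P.length + 1),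
        .jneg K (off + e.size + 2 + P.length + 1)] ++ P ++
        [.jmp (off + e.size + 2 + P.length + 1 + Q.length)] ++ Q
  | .loop e p =>
      let P := compC K (off + e.size + 1) p
      compE K e ++ [.jz K (off + e.size + 1 + P.length + 1)] ++ P ++ [.jmp off]
  | .whilepos e p =>
      let P := compC K (off + e.size + 2) p
      compE K e ++ [.jz K (off + e.size + 2 + P.length + 1),
        .jneg K (off + e.size + 2 + P.length + 1)] ++ P ++ [.jmp off]

/-- `s'` is reached from `s` in at most `t` steps, the total cost of these steps being `T`, which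
is at most `t * L`; `s'` satisfies the bound `W`. -/
inductive Steps (P : List Instr) : Config → ℕ → Config → Prop
  | refl (s : Config) : Steps P s 0 s
  | step {s s₁ s' : Config} {T : ℕ} (h : next P s = some s₁) (h' : Steps P s₁ T s') :
      Steps P s (cost P s + T) s'

theorem Steps.trans {P : List Instr} {s s₁ s₂ : Config} {T₁ T₂ : ℕ} (h₁ : Steps P s T₁ s₁)
    (h₂ : Steps P s₁ T₂ s₂) : Steps P s (T₁ + T₂) s₂ := by
  induction h₁ with
  | refl s => simpa using h₂
  | step h _ ih => rw [Nat.add_assoc]; exact .step h (ih h₂)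

theorem Steps.runsTo {P : List Instr} {s s' : Config} {T : ℕ} (h : Steps P s T s')
    (hs : P.length ≤ s'.pc) : RunsTo P s T s' := by
  induction h with
  | refl s => exact .halt _ hs
  | step h _ ih => exact .step h (ih hs)

def CB (W : ℕ) (s : Config) : Prop := ∀ i, (s.reg i).natAbs ≤ W ∧ (s.mem i).natAbs ≤ W

theorem size_le {W : ℕ} {v : ℤ} (h : v.natAbs ≤ W) : size v ≤ Nat.size W := Nat.size_le_size h

/-- the cost bound of one step -/
def stepBound (W : ℕ) : ℕ := (1 + Nat.size W) ^ 2

/-- `s'` is reached from `s` with cost at most `t * stepBound W`, and respects the bound `W`. -/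
def Reach (P : List Instr) (W : ℕ) (s : Config) (t : ℕ) (s' : Config) : Prop :=
  (∃ T ≤ t * stepBound W, Steps P s T s') ∧ CB W s'

theorem Reach.refl {P : List Instr} {W : ℕ} {s : Config} (h : CB W s) : Reach P W s 0 s :=
  ⟨⟨0, by omega, .refl s⟩, h⟩

theorem Reach.trans {P : List Instr} {W : ℕ} {s s₁ s₂ : Config} {t₁ t₂ : ℕ}
    (h₁ : Reach P W s t₁ s₁) (h₂ : Reach P W s₁ t₂ s₂) : Reach P W s (t₁ + t₂) s₂ := by
  obtain ⟨⟨T₁, hT₁, e₁⟩, b₁⟩ := h₁
  obtain ⟨⟨T₂, hT₂, e₂⟩, b₂⟩ := h₂
  refine ⟨⟨T₁ + T₂, ?_, e₁.trans e₂⟩, b₂⟩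
  rw [Nat.add_mul]
  omega

theorem Reach.mono {P : List Instr} {W : ℕ} {s s' : Config} {t t' : ℕ}
    (h : Reach P W s t s') (ht : t ≤ t') : Reach P W s t' s' := by
  obtain ⟨⟨T, hT, e⟩, b⟩ := h
  exact ⟨⟨T, hT.trans (Nat.mul_le_mul_right _ ht), e⟩, b⟩

theorem Reach.bdd {P : List Instr} {W : ℕ} {s s' : Config} {t : ℕ} (h : Reach P W s t s') :
    CB W s' := h.2

theorem cost_le {P : List Instr} {W : ℕ} {s : Config} (h : CB W s)
    (hc : ∀ d c, P[s.pc]? = some (.const d c) → c.natAbs ≤ W) : cost P s ≤ stepBound W := by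
  have hr : ∀ i, size (s.reg i) ≤ Nat.size W := fun i => size_le (h i).1
  have hm : ∀ i, size (s.mem i) ≤ Nat.size W := fun i => size_le (h i).2
  unfold cost stepBound
  have e : (1 + Nat.size W) ^ 2 = 1 + 2 * Nat.size W + Nat.size W * Nat.size W := by ring
  rcases hP : P[s.pc]? with _ | i
  · simp
  · cases i with
    | const d c =>
      have := size_le (hc d c hP)
      simp only
      rw [e]; nlinarith [Nat.zero_le (Nat.size W * Nat.size W)]
    | add d a b =>
      have h1 := hr a; have h2 := hr b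
      simp only
      rw [e]; nlinarith [Nat.zero_le (Nat.size W * Nat.size W)]
    | sub d a b =>
      have h1 := hr a; have h2 := hr b
      simp only
      rw [e]; nlinarith [Nat.zero_le (Nat.size W * Nat.size W)]
    | mul d a b =>
      simp only
      rw [pow_two]
      exact Nat.mul_le_mul (Nat.add_le_add_left (hr a) 1) (Nat.add_le_add_left (hr b) 1)
    | div d a b =>
      simp only
      rw [pow_two]
      exact Nat.mul_le_mul (Nat.add_le_add_left (hr a) 1) (Nat.add_le_add_left (hr b) 1)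
    | load d a =>
      have h1 := hr a; have h2 := hm (s.reg a).toNat
      simp only
      rw [e]; nlinarith [Nat.zero_le (Nat.size W * Nat.size W)]
    | store a b =>
      have h1 := hr a; have h2 := hr b
      simp only
      rw [e]; nlinarith [Nat.zero_le (Nat.size W * Nat.size W)]
    | jz a l =>
      have h1 := hr a
      simp only
      rw [e]; nlinarith [Nat.zero_le (Nat.size W * Nat.size W)]
    | jneg a l =>
      have h1 := hr a
      simp only
      rw [e]; nlinarith [Nat.zero_le (Nat.size W * Nat.size W)]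
    | jmp l =>
      simp only
      rw [e]; nlinarith [Nat.zero_le (Nat.size W * Nat.size W)]
    | coin d =>
      simp only
      rw [e]; nlinarith [Nat.zero_le (Nat.size W * Nat.size W)]

theorem Reach.one {P : List Instr} {W : ℕ} {s s' : Config} (h : CB W s)
    (hc : ∀ d c, P[s.pc]? = some (.const d c) → c.natAbs ≤ W)
    (h' : CB W s') (hs : next P s = some s') : Reach P W s 1 s' := by
  refine ⟨⟨cost P s + 0, ?_, .step hs (.refl s')⟩, h'⟩
  have := cost_le h hc
  omega

theorem Reach.one' {P : List Instr} {W : ℕ} {s s' : Config} (hs : next P s = some s')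
    (h : CB W s) (hc : ∀ d c, P[s.pc]? = some (.const d c) → c.natAbs ≤ W)
    (h' : CB W s') : Reach P W s 1 s' := Reach.one h hc h' hs

/-- The code `C` occurs in `P` at position `off`. -/
def At (P : List Instr) (off : ℕ) (C : List Instr) : Prop :=
  ∃ pre post, P = pre ++ C ++ post ∧ pre.length = off

theorem At.append {P : List Instr} {off : ℕ} {C D : List Instr} (h : At P off (C ++ D)) :
    At P off C ∧ At P (off + C.length) D := by
  obtain ⟨pre, post, rfl, rfl⟩ := h
  refine ⟨⟨pre, D ++ post, by simp, rfl⟩, ⟨pre ++ C, post, by simp, by simp⟩⟩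

theorem At.get {P : List Instr} {off : ℕ} {i : Instr} {D : List Instr} (h : At P off (i :: D)) :
    P[off]? = some i := by
  obtain ⟨pre, post, rfl, rfl⟩ := h
  simp

theorem At.tail {P : List Instr} {off : ℕ} {i : Instr} {D : List Instr} (h : At P off (i :: D)) :
    At P (off + 1) D := by
  obtain ⟨pre, post, rfl, rfl⟩ := h
  exact ⟨pre ++ [i], post, by simp, by simp⟩

/-- agreement of a flat configuration with a state on the registers below `K` and the memory -/
def Agree (K : ℕ) (s : Config) (σ : St) : Prop := (∀ r < K, s.reg r = σ.reg r) ∧ s.mem = σ.mem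

theorem CB.upd {W : ℕ} {s : Config} (h : CB W s) {p d : ℕ} {v : ℤ} {bs : List Bool}
    (hv : v.natAbs ≤ W) : CB W ⟨p, Function.update s.reg d v, s.mem, bs⟩ := by
  intro i
  refine ⟨?_, (h i).2⟩
  simp only [Function.update_apply]
  split_ifs
  · exact hv
  · exact (h i).1

/-- code for an expression: result in register `k`, registers below `k` unchanged -/
theorem compE_correct {P : List Instr} {W K : ℕ} (e : Expr) :
    ∀ (k off : ℕ) (s : Config) (σ : St), K ≤ k → e.vars K → Agree K s σ → CB W s →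
      e.ok W σ → s.pc = off → At P off (compE k e) →
      ∃ s', Reach P W s e.size s' ∧ s'.pc = off + e.size ∧ s'.mem = s.mem ∧
        (∀ r < k, s'.reg r = s.reg r) ∧ s'.reg k = e.eval σ ∧ s'.coins = s.coins := by
  have bin : ∀ (a b : Expr) (f : ℤ → ℤ → ℤ) (mk : ℕ → ℕ → ℕ → Instr) (k off : ℕ) (s : Config)
      (σ : St)
      (_hmk : ∀ (s : Config), P[s.pc]? = some (mk k k (k + 1)) →
        next P s = some ⟨s.pc + 1, Function.update s.reg k (f (s.reg k) (s.reg (k + 1))), s.mem,
          s.coins⟩)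
      (_hnc : ∀ d c, mk k k (k + 1) ≠ .const d c)
      (_iha : ∀ (k off : ℕ) (s : Config) (σ : St), K ≤ k → a.vars K → Agree K s σ → CB W s →
        a.ok W σ → s.pc = off → At P off (compE k a) →
        ∃ s', Reach P W s a.size s' ∧ s'.pc = off + a.size ∧ s'.mem = s.mem ∧
          (∀ r < k, s'.reg r = s.reg r) ∧ s'.reg k = a.eval σ ∧ s'.coins = s.coins)
      (_ihb : ∀ (k off : ℕ) (s : Config) (σ : St), K ≤ k → b.vars K → Agree K s σ → CB W s →
        b.ok W σ → s.pc = off → At P off (compE k b) →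
        ∃ s', Reach P W s b.size s' ∧ s'.pc = off + b.size ∧ s'.mem = s.mem ∧
          (∀ r < k, s'.reg r = s.reg r) ∧ s'.reg k = b.eval σ ∧ s'.coins = s.coins),
      K ≤ k → a.vars K → b.vars K → Agree K s σ → CB W s → a.ok W σ → b.ok W σ →
      ((a.eval σ).natAbs ≤ W → (f (a.eval σ) (b.eval σ)).natAbs ≤ W) → s.pc = off →
      At P off (compE k a ++ compE (k + 1) b ++ [mk k k (k + 1)]) →
      ∃ s', Reach P W s (a.size + b.size + 1) s' ∧ s'.pc = off + (a.size + b.size + 1) ∧
        s'.mem = s.mem ∧ (∀ r < k, s'.reg r = s.reg r) ∧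
        s'.reg k = f (a.eval σ) (b.eval σ) ∧ s'.coins = s.coins := by
    intro a b f mk k off s σ hmk hnc iha ihb hk hva hvb hag hcb hoka hokb hle hpc hat
    obtain ⟨h12, h3⟩ := hat.append
    obtain ⟨h1, h2⟩ := h12.append
    rw [compE_length] at h2
    rw [List.length_append, compE_length, compE_length] at h3
    obtain ⟨s₁, r₁, p₁, m₁, f₁, v₁, c₁⟩ := iha k off s σ hk hva hag hcb hoka hpc h1
    have hag₁ : Agree K s₁ σ := ⟨fun r hr => (f₁ r (by omega)).trans (hag.1 r hr), m₁.trans hag.2⟩
    obtain ⟨s₂, r₂, p₂, m₂, f₂, v₂, c₂⟩ :=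
      ihb (k + 1) (off + a.size) s₁ σ (by omega) hvb hag₁ r₁.bdd hokb p₁ h2
    have hget := h3.get
    have hget' : P[s₂.pc]? = some (mk k k (k + 1)) := by rw [p₂, Nat.add_assoc]; exact hget
    have hst := hmk s₂ hget'
    have hk2 : s₂.reg k = a.eval σ := (f₂ k (by omega)).trans v₁
    have hle := hle (by rw [← v₁]; exact (r₁.bdd k).1)
    rw [hk2, v₂] at hst
    refine ⟨_, (r₁.trans r₂).trans (Reach.one r₂.bdd ?_ ?_ hst), ?_, ?_, ?_, ?_, ?_⟩
    · intro d c hdc
      rw [hget'] at hdc
      exact absurd (Option.some.inj hdc) (hnc d c)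
    · exact CB.upd (W := W) r₂.bdd hle
    · simp only [p₂]; omega
    · simp only [m₂, m₁]
    · intro r hr
      simp only [Function.update_apply, if_neg (show r ≠ k by omega)]
      rw [f₂ r (by omega), f₁ r hr]
    · simp
    · simp only [c₂, c₁]
  induction e with
  | lit c =>
    intro k off s σ hk hv hag hcb hok hpc hat
    have hget := hat.get
    have hst : next P s = some ⟨s.pc + 1, Function.update s.reg k c, s.mem, s.coins⟩ := by
      simp only [next, hpc, hget]
    refine ⟨_, Reach.one hcb ?_ (CB.upd hcb hok) hst, ?_, rfl, ?_, ?_, rfl⟩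
    · intro d c' hdc
      rw [hpc, hget] at hdc
      obtain ⟨rfl, rfl⟩ := Instr.const.inj (Option.some.inj hdc)
      exact hok
    · simp [hpc, Expr.size]
    · intro r hr
      simp only [Function.update_apply, if_neg (show r ≠ k by omega)]
    · simp [Expr.eval]
  | var r =>
    intro k off s σ hk hv hag hcb hok hpc hat
    have hget := hat.get
    have hget2 := hat.tail.get
    have hst : next P s = some ⟨off + 1, Function.update s.reg k 0, s.mem, s.coins⟩ := by
      simp only [next, hpc, hget]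
    have hcb1 : CB W ⟨off + 1, Function.update s.reg k 0, s.mem, s.coins⟩ :=
      CB.upd hcb (Nat.zero_le _)
    have hrk : r ≠ k := by
      have : r < K := hv
      omega
    have hst2 : next P ⟨off + 1, Function.update s.reg k 0, s.mem, s.coins⟩ =
        some ⟨off + 1 + 1, Function.update (Function.update s.reg k 0) k (s.reg r), s.mem,
          s.coins⟩ := by
      simp only [next, hget2]
      simp [hrk]
    refine ⟨_, (Reach.one hcb ?_ hcb1 hst).trans (Reach.one hcb1 ?_ ?_ hst2), ?_, rfl, ?_, ?_,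
      rfl⟩
    · intro d c' hdc
      rw [hpc, hget] at hdc
      obtain ⟨rfl, rfl⟩ := Instr.const.inj (Option.some.inj hdc)
      simp
    · intro d c' hdc
      rw [hget2] at hdc
      exact absurd (Option.some.inj hdc) (by simp)
    · exact CB.upd hcb1 (hcb r).1
    · simp [Expr.size]
    · intro r' hr'
      simp only [Function.update_apply, if_neg (show r' ≠ k by omega)]
    · simpa [Expr.eval] using hag.1 r hv
  | add a b iha ihb =>
    intro k off s σ hk hv hag hcb hok hpc hat
    exact bin a b (· + ·) .add k off s σ (fun s hs => by simp only [next, hs]) (by simp) iha ihb hk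
      hv.1 hv.2 hag hcb hok.1 hok.2.1 (fun _ => hok.2.2) hpc hat
  | sub a b iha ihb =>
    intro k off s σ hk hv hag hcb hok hpc hat
    exact bin a b (· - ·) .sub k off s σ (fun s hs => by simp only [next, hs]) (by simp) iha ihb hk
      hv.1 hv.2 hag hcb hok.1 hok.2.1 (fun _ => hok.2.2) hpc hat
  | mul a b iha ihb =>
    intro k off s σ hk hv hag hcb hok hpc hat
    exact bin a b (· * ·) .mul k off s σ (fun s hs => by simp only [next, hs]) (by simp) iha ihb hk
      hv.1 hv.2 hag hcb hok.1 hok.2.1 (fun _ => hok.2.2) hpc hat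
  | div a b iha ihb =>
    intro k off s σ hk hv hag hcb hok hpc hat
    exact bin a b (· / ·) .div k off s σ (fun s hs => by simp only [next, hs]) (by simp) iha ihb hk
      hv.1 hv.2 hag hcb hok.1 hok.2 (fun hle => (Int.natAbs_ediv_le_natAbs _ _).trans hle) hpc hat
  | load a iha =>
    intro k off s σ hk hv hag hcb hok hpc hat
    obtain ⟨h1, h2⟩ := hat.append
    rw [compE_length] at h2
    obtain ⟨s₁, r₁, p₁, m₁, f₁, v₁, c₁⟩ := iha k off s σ hk hv hag hcb hok hpc h1
    have hget := h2.get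
    have hst : next P s₁ = some ⟨s₁.pc + 1,
        Function.update s₁.reg k (s₁.mem (s₁.reg k).toNat), s₁.mem, s₁.coins⟩ := by
      simp only [next, p₁, hget]
    refine ⟨_, r₁.trans (Reach.one r₁.bdd ?_ ?_ hst), ?_, ?_, ?_, ?_, ?_⟩
    · intro d c' hdc
      rw [p₁, hget] at hdc
      exact absurd (Option.some.inj hdc) (by simp)
    · exact CB.upd (W := W) r₁.bdd (r₁.bdd _).2
    · simp only [p₁, Expr.size]; omega
    · simp only [m₁]
    · intro r hr
      simp only [Function.update_apply, if_neg (show r ≠ k by omega)]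
      rw [f₁ r hr]
    · simp [Expr.eval, v₁, m₁, hag.2]
    · simp only [c₁]

/-- Correctness of the compiler. -/
theorem compC_correct {P : List Instr} {W K : ℕ} {c : Cmd} {σ σ' : St} {β : List Bool} {t : ℕ}
    (hW : 1 ≤ W) (h : Exec W c σ β t σ') : ∀ (off : ℕ) (s : Config) (γ : List Bool), c.vars K →
      Agree K s σ → CB W s → s.pc = off → s.coins = β ++ γ → At P off (compC K off c) →
      ∃ s', Reach P W s t s' ∧ s'.pc = off + (compC K off c).length ∧ Agree K s' σ' ∧
        s'.coins = γ := by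
  have nc : ∀ {i : ℕ} {j : Instr} (_ : P[i]? = some j) (_ : ∀ d c, j ≠ .const d c),
      ∀ d c, P[i]? = some (.const d c) → c.natAbs ≤ W := by
    intro i j hj hn d c hdc
    rw [hj] at hdc
    exact absurd (Option.some.inj hdc) (hn d c)
  induction h with
  | skip σ =>
    intro off s γ hv hag hcb hpc hco hat
    exact ⟨s, Reach.refl hcb, by simp [hpc, compC], hag, by simpa using hco⟩
  | assign σ d e hok =>
    intro off s γ hv hag hcb hpc hco hat
    obtain ⟨h1, h2⟩ := At.append hat
    rw [compE_length] at h2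
    obtain ⟨s₁, r₁, p₁, m₁, f₁, v₁, c₁⟩ :=
      compE_correct e K off s σ le_rfl hv.2 hag hcb hok hpc h1
    have hget := h2.get
    have hget2 := h2.tail.get
    have hst : next P s₁ = some ⟨off + e.size + 1, Function.update s₁.reg (K + 1) 0, s₁.mem,
        s₁.coins⟩ := by
      simp only [next, p₁, hget]
    have hcb1 : CB W ⟨off + e.size + 1, Function.update s₁.reg (K + 1) 0, s₁.mem, s₁.coins⟩ :=
      CB.upd (W := W) r₁.bdd (Nat.zero_le _)
    have hst2 : next P ⟨off + e.size + 1, Function.update s₁.reg (K + 1) 0, s₁.mem, s₁.coins⟩ =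
        some ⟨off + e.size + 1 + 1, Function.update (Function.update s₁.reg (K + 1) 0) d
          (s₁.reg K), s₁.mem, s₁.coins⟩ := by
      simp only [next, hget2]
      simp
    have hd : d < K := hv.1
    refine ⟨_, r₁.trans ((Reach.one r₁.bdd ?_ hcb1 hst).trans (Reach.one hcb1 ?_ ?_ hst2)),
      ?_, ?_, ?_⟩
    · intro d' c' hdc
      rw [p₁, hget] at hdc
      obtain ⟨rfl, rfl⟩ := Instr.const.inj (Option.some.inj hdc)
      simp
    · exact nc hget2 (by simp)
    · exact CB.upd hcb1 (r₁.bdd _).1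
    · simp [compC, compE_length]; omega
    · constructor
      · intro r hr
        simp only [Function.update_apply, St.set, v₁]
        split_ifs with h1 h2
        · rfl
        · omega
        · rw [f₁ r hr]; exact hag.1 r hr
      · simp only [St.set, m₁]; exact hag.2
    · simp only [c₁, hco, List.nil_append]
  | store σ a v ha hv' =>
    intro off s γ hv hag hcb hpc hco hat
    obtain ⟨h12, h3⟩ := At.append hat
    obtain ⟨h1, h2⟩ := h12.append
    rw [compE_length] at h2
    rw [List.length_append, compE_length, compE_length] at h3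
    obtain ⟨s₁, r₁, p₁, m₁, f₁, v₁, c₁⟩ :=
      compE_correct a K off s σ le_rfl hv.1 hag hcb ha hpc h1
    have hag₁ : Agree K s₁ σ := ⟨fun r hr => (f₁ r (by omega)).trans (hag.1 r hr), m₁.trans hag.2⟩
    obtain ⟨s₂, r₂, p₂, m₂, f₂, v₂, c₂⟩ :=
      compE_correct v (K + 1) (off + a.size) s₁ σ (by omega) hv.2 hag₁ r₁.bdd hv' p₁ h2
    have hk2 : s₂.reg K = a.eval σ := (f₂ K (by omega)).trans v₁
    have hget := h3.get
    have hget' : P[s₂.pc]? = some (.store K (K + 1)) := by rw [p₂, Nat.add_assoc]; exact hget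
    have hst : next P s₂ = some ⟨off + (a.size + v.size) + 1, s₂.reg,
        Function.update s₂.mem (a.eval σ).toNat (v.eval σ), s₂.coins⟩ := by
      rw [← Nat.add_assoc] at hget
      simp only [next, p₂, hget, hk2, v₂]
      simp only [Nat.add_assoc]
    refine ⟨_, (r₁.trans r₂).trans (Reach.one r₂.bdd (nc hget' (by simp)) ?_ hst), ?_, ?_, ?_⟩
    · intro i
      refine ⟨(r₂.bdd i).1, ?_⟩
      simp only [Function.update_apply]
      split_ifs
      · rw [← v₂]; exact (r₂.bdd _).1
      · exact (r₂.bdd i).2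
    · simp [compC, compE_length]; omega
    · constructor
      · intro r hr
        simp only [St.put]
        rw [f₂ r (by omega), f₁ r hr]; exact hag.1 r hr
      · simp only [St.put, m₂, m₁]; rw [hag.2]
    · simp only [c₂, c₁, hco, List.nil_append]
  | coin σ d b =>
    intro off s γ hv hag hcb hpc hco hat
    have hget : P[off]? = some (.coin d) := At.get hat
    have hst : next P s = some ⟨off + 1, Function.update s.reg d (if b then 1 else 0), s.mem,
        γ⟩ := by
      simp only [next, hpc, hget]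
      rw [show s.coins = b :: γ by simpa using hco]
    refine ⟨_, Reach.one hcb (nc (by rw [hpc]; exact hget) (by simp))
      (CB.upd hcb (coin_natAbs hW b)) hst, ?_, ?_, rfl⟩
    · simp [compC]
    · constructor
      · intro r hr
        simp only [Function.update_apply, St.set]
        split_ifs with h1
        · rfl
        · rfl
        · exact hag.1 r hr
      · simp only [St.set]; exact hag.2
  | @seq p q σ σ₁ σ₂ β₁ β₂ t₁ t₂ h₁ h₂ ih₁ ih₂ =>
    intro off s γ hv hag hcb hpc hco hat
    obtain ⟨h1, h2⟩ := At.append hat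
    obtain ⟨s₁, r₁, p₁, g₁, c₁⟩ := ih₁ off s (β₂ ++ γ) hv.1 hag hcb hpc
      (by rw [hco, List.append_assoc]) h1
    obtain ⟨s₂, r₂, p₂, g₂, c₂⟩ := ih₂ _ s₁ γ hv.2 g₁ r₁.bdd p₁ c₁ h2
    refine ⟨s₂, r₁.trans r₂, ?_, g₂, c₂⟩
    rw [p₂]; simp [compC]; omega
  | @iteT e p q σ σ' β t hok he h₁ ih =>
    intro off s γ hv hag hcb hpc hco hat
    obtain ⟨h1234, h5⟩ := At.append hat
    obtain ⟨h123, h4⟩ := h1234.append
    obtain ⟨h12, h3⟩ := h123.append
    obtain ⟨h1, h2⟩ := h12.append
    rw [compE_length] at h2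
    rw [List.length_append, compE_length, List.length_singleton] at h3
    rw [List.length_append, List.length_append, compE_length, List.length_singleton] at h4
    obtain ⟨s₁, r₁, p₁, m₁, f₁, v₁, c₁⟩ :=
      compE_correct e K off s σ le_rfl hv.1 hag hcb hok hpc h1
    have hget := h2.get
    have hst : next P s₁ = some ⟨off + e.size + 1, s₁.reg, s₁.mem, s₁.coins⟩ := by
      simp only [next, p₁, hget, v₁, if_neg he]
    have hag₁ : Agree K ⟨off + e.size + 1, s₁.reg, s₁.mem, s₁.coins⟩ σ :=
      ⟨fun r hr => (f₁ r hr).trans (hag.1 r hr), m₁.trans hag.2⟩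
    have h3' : At P (off + e.size + 1) (compC K (off + e.size + 1) p) := by
      simpa [Nat.add_assoc] using h3
    obtain ⟨s₂, r₂, p₂, g₂, c₂⟩ := ih (off + e.size + 1)
      ⟨off + e.size + 1, s₁.reg, s₁.mem, s₁.coins⟩ γ hv.2.1 hag₁ r₁.bdd rfl (c₁.trans hco) h3'
    have hget4 := h4.get
    set LP := (compC K (off + e.size + 1) p).length with hLP
    set LQ := (compC K (off + e.size + 1 + LP + 1) q).length with hLQ
    have hpc2 : s₂.pc = off + (e.size + 1 + LP) := by rw [p₂]; omega
    have hst2 : next P s₂ = some ⟨off + e.size + 1 + LP + 1 + LQ, s₂.reg, s₂.mem,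
        s₂.coins⟩ := by
      simp only [next, hpc2, hget4]
    refine ⟨_, ((r₁.trans (Reach.one r₁.bdd (nc (by rw [p₁]; exact hget) (by simp)) ?_ hst)).trans
      r₂).trans (Reach.one r₂.bdd (nc (by rw [hpc2]; exact hget4) (by simp)) ?_ hst2), ?_, ?_, c₂⟩
    · exact r₁.bdd
    · exact r₂.bdd
    · simp only [compC, List.length_append, compE_length, List.length_singleton, ← hLP, ← hLQ]
      omega
    · exact ⟨g₂.1, g₂.2⟩
  | @iteF e p q σ σ' β t hok he h₁ ih =>
    intro off s γ hv hag hcb hpc hco hat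
    obtain ⟨h1234, h5⟩ := At.append hat
    obtain ⟨h123, h4⟩ := h1234.append
    obtain ⟨h12, h3⟩ := h123.append
    obtain ⟨h1, h2⟩ := h12.append
    rw [compE_length] at h2
    obtain ⟨s₁, r₁, p₁, m₁, f₁, v₁, c₁⟩ :=
      compE_correct e K off s σ le_rfl hv.1 hag hcb hok hpc h1
    have hget := h2.get
    set LP := (compC K (off + e.size + 1) p).length with hLP
    have hst : next P s₁ = some ⟨off + e.size + 1 + LP + 1, s₁.reg, s₁.mem, s₁.coins⟩ := by
      simp only [next, p₁, hget, v₁, if_pos he]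
    have hag₁ : Agree K ⟨off + e.size + 1 + LP + 1, s₁.reg, s₁.mem, s₁.coins⟩ σ :=
      ⟨fun r hr => (f₁ r hr).trans (hag.1 r hr), m₁.trans hag.2⟩
    have h5' : At P (off + e.size + 1 + LP + 1) (compC K (off + e.size + 1 + LP + 1) q) := by
      have e5 : off + (compE K e ++ [Instr.jz K (off + e.size + 1 + LP + 1)] ++
          compC K (off + e.size + 1) p ++
          [Instr.jmp (off + e.size + 1 + LP + 1 +
            (compC K (off + e.size + 1 + LP + 1) q).length)]).length
          = off + e.size + 1 + LP + 1 := by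
        simp only [List.length_append, compE_length, List.length_singleton]
        omega
      rw [← e5]
      convert h5 using 1
      rw [e5]
    obtain ⟨s₂, r₂, p₂, g₂, c₂⟩ :=
      ih (off + e.size + 1 + LP + 1) ⟨off + e.size + 1 + LP + 1, s₁.reg, s₁.mem, s₁.coins⟩ γ
        hv.2.2 hag₁ r₁.bdd rfl (c₁.trans hco) h5'
    refine ⟨_, (r₁.trans (Reach.one r₁.bdd (nc (by rw [p₁]; exact hget) (by simp)) ?_ hst)).trans
      r₂, ?_, ?_, c₂⟩
    · exact r₁.bdd
    · rw [p₂]
      simp only [compC, List.length_append, compE_length, List.length_singleton, ← hLP]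
      omega
    · exact g₂
  | @ifposT e p q σ σ' β t hok he h₁ ih =>
    intro off s γ hv hag hcb hpc hco hat
    obtain ⟨h1234, h5⟩ := At.append hat
    obtain ⟨h123, h4⟩ := h1234.append
    obtain ⟨h12, h3⟩ := h123.append
    obtain ⟨h1, h2⟩ := h12.append
    rw [compE_length] at h2
    rw [show off + (compE K e ++ [Instr.jz K (off + e.size + 2 +
      (compC K (off + e.size + 2) p).length + 1), Instr.jneg K (off + e.size + 2 +
      (compC K (off + e.size + 2) p).length + 1)]).length = off + e.size + 2 by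
      simp [compE_length]; omega] at h3
    rw [show off + (compE K e ++ [Instr.jz K (off + e.size + 2 +
      (compC K (off + e.size + 2) p).length + 1), Instr.jneg K (off + e.size + 2 +
      (compC K (off + e.size + 2) p).length + 1)] ++ compC K (off + e.size + 2) p).length =
      off + e.size + 2 + (compC K (off + e.size + 2) p).length by
      simp [compE_length]; omega] at h4
    obtain ⟨s₁, r₁, p₁, m₁, f₁, v₁, c₁⟩ :=
      compE_correct e K off s σ le_rfl hv.1 hag hcb hok hpc h1
    have hget := h2.get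
    have hget' := h2.tail.get
    have hst : next P s₁ = some ⟨off + e.size + 1, s₁.reg, s₁.mem, s₁.coins⟩ := by
      simp only [next, p₁, hget, v₁, if_neg he.ne']
    have hst' : next P ⟨off + e.size + 1, s₁.reg, s₁.mem, s₁.coins⟩ =
        some ⟨off + e.size + 2, s₁.reg, s₁.mem, s₁.coins⟩ := by
      simp only [next, hget', v₁, if_neg (not_lt.mpr he.le)]
    have hag₁ : Agree K ⟨off + e.size + 2, s₁.reg, s₁.mem, s₁.coins⟩ σ :=
      ⟨fun r hr => (f₁ r hr).trans (hag.1 r hr), m₁.trans hag.2⟩
    have h3' : At P (off + e.size + 2) (compC K (off + e.size + 2) p) := h3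
    obtain ⟨s₂, r₂, p₂, g₂, c₂⟩ := ih (off + e.size + 2)
      ⟨off + e.size + 2, s₁.reg, s₁.mem, s₁.coins⟩ γ hv.2.1 hag₁ r₁.bdd rfl (c₁.trans hco) h3'
    have hget4 := h4.get
    set LP := (compC K (off + e.size + 2) p).length with hLP
    set LQ := (compC K (off + e.size + 2 + LP + 1) q).length with hLQ
    have hpc2 : s₂.pc = off + e.size + 2 + LP := by rw [p₂]
    have hst2 : next P s₂ = some ⟨off + e.size + 2 + LP + 1 + LQ, s₂.reg, s₂.mem,
        s₂.coins⟩ := by
      simp only [next, hpc2, hget4]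
    refine ⟨_, (((r₁.trans (Reach.one r₁.bdd (nc (by rw [p₁]; exact hget) (by simp)) ?_
      hst)).trans (Reach.one ?_ (nc hget' (by simp)) ?_ hst')).trans
      r₂).trans (Reach.one r₂.bdd (nc (by rw [hpc2]; exact hget4) (by simp)) ?_ hst2), ?_, ?_, c₂⟩
    · exact r₁.bdd
    · exact r₁.bdd
    · exact r₁.bdd
    · exact r₂.bdd
    · simp only [compC, List.length_append, compE_length, List.length_cons,
        List.length_nil, ← hLP, ← hLQ]
      omega
    · exact ⟨g₂.1, g₂.2⟩
  | @ifposF e p q σ σ' β t hok he h₁ ih =>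
    intro off s γ hv hag hcb hpc hco hat
    obtain ⟨h1234, h5⟩ := At.append hat
    obtain ⟨h123, h4⟩ := h1234.append
    obtain ⟨h12, h3⟩ := h123.append
    obtain ⟨h1, h2⟩ := h12.append
    rw [compE_length] at h2
    obtain ⟨s₁, r₁, p₁, m₁, f₁, v₁, c₁⟩ :=
      compE_correct e K off s σ le_rfl hv.1 hag hcb hok hpc h1
    have hget := h2.get
    have hget' := h2.tail.get
    set LP := (compC K (off + e.size + 2) p).length with hLP
    have hR : Reach P W s₁ 2 ⟨off + e.size + 2 + LP + 1, s₁.reg, s₁.mem, s₁.coins⟩ := by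
      by_cases he0 : e.eval σ = 0
      · have hst : next P s₁ = some ⟨off + e.size + 2 + LP + 1, s₁.reg, s₁.mem, s₁.coins⟩ := by
          simp only [next, p₁, hget, v₁, if_pos he0]
        exact (Reach.one' hst r₁.bdd (nc (by rw [p₁]; exact hget) (by simp)) r₁.bdd).mono
          (by omega)
      · have hst : next P s₁ = some ⟨off + e.size + 1, s₁.reg, s₁.mem, s₁.coins⟩ := by
          simp only [next, p₁, hget, v₁, if_neg he0]
        have hst' : next P ⟨off + e.size + 1, s₁.reg, s₁.mem, s₁.coins⟩ =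
            some ⟨off + e.size + 2 + LP + 1, s₁.reg, s₁.mem, s₁.coins⟩ := by
          simp only [next, hget', v₁, if_pos (lt_of_le_of_ne he he0)]
        exact (Reach.one' hst r₁.bdd (nc (by rw [p₁]; exact hget) (by simp)) r₁.bdd).trans
          (Reach.one' hst' r₁.bdd (nc hget' (by simp)) r₁.bdd)
    have hag₁ : Agree K ⟨off + e.size + 2 + LP + 1, s₁.reg, s₁.mem, s₁.coins⟩ σ :=
      ⟨fun r hr => (f₁ r hr).trans (hag.1 r hr), m₁.trans hag.2⟩
    have h5' : At P (off + e.size + 2 + LP + 1) (compC K (off + e.size + 2 + LP + 1) q) := by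
      have e5 : off + (compE K e ++ [Instr.jz K (off + e.size + 2 + LP + 1),
          Instr.jneg K (off + e.size + 2 + LP + 1)] ++
          compC K (off + e.size + 2) p ++
          [Instr.jmp (off + e.size + 2 + LP + 1 +
            (compC K (off + e.size + 2 + LP + 1) q).length)]).length
          = off + e.size + 2 + LP + 1 := by
        simp only [List.length_append, compE_length, List.length_cons, List.length_nil]
        omega
      rw [← e5]
      convert h5 using 1
      rw [e5]
    obtain ⟨s₂, r₂, p₂, g₂, c₂⟩ :=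
      ih (off + e.size + 2 + LP + 1) ⟨off + e.size + 2 + LP + 1, s₁.reg, s₁.mem, s₁.coins⟩ γ
        hv.2.2 hag₁ r₁.bdd rfl (c₁.trans hco) h5'
    refine ⟨_, (r₁.trans hR).trans r₂, ?_, ?_, c₂⟩
    · rw [p₂]
      simp only [compC, List.length_append, compE_length, List.length_cons,
        List.length_nil, ← hLP]
      omega
    · exact g₂
  | @loopF e p σ hok he =>
    intro off s γ hv hag hcb hpc hco hat
    obtain ⟨h123, h4⟩ := At.append hat
    obtain ⟨h12, h3⟩ := h123.append
    obtain ⟨h1, h2⟩ := h12.append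
    rw [compE_length] at h2
    obtain ⟨s₁, r₁, p₁, m₁, f₁, v₁, c₁⟩ :=
      compE_correct e K off s σ le_rfl hv.1 hag hcb hok hpc h1
    have hget := h2.get
    set LP := (compC K (off + e.size + 1) p).length with hLP
    have hst : next P s₁ = some ⟨off + e.size + 1 + LP + 1, s₁.reg, s₁.mem, s₁.coins⟩ := by
      simp only [next, p₁, hget, v₁, if_pos he]
    refine ⟨_, r₁.trans (Reach.one r₁.bdd (nc (by rw [p₁]; exact hget) (by simp)) ?_ hst), ?_,
      ?_, by simpa [c₁] using hco⟩
    · exact r₁.bdd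
    · simp only [compC, List.length_append, compE_length, List.length_singleton]
      omega
    · exact ⟨fun r hr => (f₁ r hr).trans (hag.1 r hr), m₁.trans hag.2⟩
  | @loopT e p σ σ₁ σ₂ β₁ β₂ t₁ t₂ hok he h₁ h₂ ih₁ ih₂ =>
    intro off s γ hv hag hcb hpc hco hat
    have hat' := hat
    obtain ⟨h123, h4⟩ := At.append hat
    obtain ⟨h12, h3⟩ := h123.append
    obtain ⟨h1, h2⟩ := h12.append
    rw [compE_length] at h2
    rw [List.length_append, compE_length, List.length_singleton] at h3
    rw [List.length_append, List.length_append, compE_length, List.length_singleton] at h4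
    obtain ⟨s₁, r₁, p₁, m₁, f₁, v₁, c₁⟩ :=
      compE_correct e K off s σ le_rfl hv.1 hag hcb hok hpc h1
    have hget := h2.get
    have hst : next P s₁ = some ⟨off + e.size + 1, s₁.reg, s₁.mem, s₁.coins⟩ := by
      simp only [next, p₁, hget, v₁, if_neg he]
    have hag₁ : Agree K ⟨off + e.size + 1, s₁.reg, s₁.mem, s₁.coins⟩ σ :=
      ⟨fun r hr => (f₁ r hr).trans (hag.1 r hr), m₁.trans hag.2⟩
    have h3' : At P (off + e.size + 1) (compC K (off + e.size + 1) p) := by
      simpa [Nat.add_assoc] using h3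
    obtain ⟨s₂, r₂, p₂, g₂, c₂⟩ := ih₁ (off + e.size + 1)
      ⟨off + e.size + 1, s₁.reg, s₁.mem, s₁.coins⟩ (β₂ ++ γ) hv.2 hag₁ r₁.bdd rfl
      (by rw [c₁, hco, List.append_assoc]) h3'
    have hget4 := h4.get
    have hpc2 : s₂.pc = off + (e.size + 1 + (compC K (off + e.size + 1) p).length) := by
      rw [p₂]; omega
    have hst2 : next P s₂ = some ⟨off, s₂.reg, s₂.mem, s₂.coins⟩ := by
      simp only [next, hpc2, hget4]
    obtain ⟨s₃, r₃, p₃, g₃, c₃⟩ := ih₂ off ⟨off, s₂.reg, s₂.mem, s₂.coins⟩ γ hv ⟨g₂.1, g₂.2⟩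
      r₂.bdd rfl c₂ hat'
    refine ⟨s₃, (((r₁.trans (Reach.one r₁.bdd (nc (by rw [p₁]; exact hget) (by simp)) ?_
      hst)).trans r₂).trans
      (Reach.one r₂.bdd (nc (by rw [hpc2]; exact hget4) (by simp)) ?_ hst2)).trans r₃, p₃, g₃, c₃⟩
    · exact r₁.bdd
    · exact r₂.bdd
  | @whileposF e p σ hok he =>
    intro off s γ hv hag hcb hpc hco hat
    obtain ⟨h123, h4⟩ := At.append hat
    obtain ⟨h12, h3⟩ := h123.append
    obtain ⟨h1, h2⟩ := h12.append
    rw [compE_length] at h2
    obtain ⟨s₁, r₁, p₁, m₁, f₁, v₁, c₁⟩ :=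
      compE_correct e K off s σ le_rfl hv.1 hag hcb hok hpc h1
    have hget := h2.get
    have hget' := h2.tail.get
    set LP := (compC K (off + e.size + 2) p).length with hLP
    have hR : Reach P W s₁ 2 ⟨off + e.size + 2 + LP + 1, s₁.reg, s₁.mem, s₁.coins⟩ := by
      by_cases he0 : e.eval σ = 0
      · have hst : next P s₁ = some ⟨off + e.size + 2 + LP + 1, s₁.reg, s₁.mem, s₁.coins⟩ := by
          simp only [next, p₁, hget, v₁, if_pos he0]
        exact (Reach.one' hst r₁.bdd (nc (by rw [p₁]; exact hget) (by simp)) r₁.bdd).mono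
          (by omega)
      · have hst : next P s₁ = some ⟨off + e.size + 1, s₁.reg, s₁.mem, s₁.coins⟩ := by
          simp only [next, p₁, hget, v₁, if_neg he0]
        have hst' : next P ⟨off + e.size + 1, s₁.reg, s₁.mem, s₁.coins⟩ =
            some ⟨off + e.size + 2 + LP + 1, s₁.reg, s₁.mem, s₁.coins⟩ := by
          simp only [next, hget', v₁, if_pos (lt_of_le_of_ne he he0)]
        exact (Reach.one' hst r₁.bdd (nc (by rw [p₁]; exact hget) (by simp)) r₁.bdd).trans
          (Reach.one' hst' r₁.bdd (nc hget' (by simp)) r₁.bdd)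
    refine ⟨_, r₁.trans hR, ?_, ?_, by simpa [c₁] using hco⟩
    · simp only [compC, List.length_append, compE_length, List.length_cons,
        List.length_nil]
      omega
    · exact ⟨fun r hr => (f₁ r hr).trans (hag.1 r hr), m₁.trans hag.2⟩
  | @whileposT e p σ σ₁ σ₂ β₁ β₂ t₁ t₂ hok he h₁ h₂ ih₁ ih₂ =>
    intro off s γ hv hag hcb hpc hco hat
    have hat' := hat
    obtain ⟨h123, h4⟩ := At.append hat
    obtain ⟨h12, h3⟩ := h123.append
    obtain ⟨h1, h2⟩ := h12.append
    rw [compE_length] at h2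
    rw [show off + (compE K e ++ [Instr.jz K (off + e.size + 2 +
      (compC K (off + e.size + 2) p).length + 1), Instr.jneg K (off + e.size + 2 +
      (compC K (off + e.size + 2) p).length + 1)]).length = off + e.size + 2 by
      simp [compE_length]; omega] at h3
    rw [show off + (compE K e ++ [Instr.jz K (off + e.size + 2 +
      (compC K (off + e.size + 2) p).length + 1), Instr.jneg K (off + e.size + 2 +
      (compC K (off + e.size + 2) p).length + 1)] ++ compC K (off + e.size + 2) p).length =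
      off + e.size + 2 + (compC K (off + e.size + 2) p).length by
      simp [compE_length]; omega] at h4
    obtain ⟨s₁, r₁, p₁, m₁, f₁, v₁, c₁⟩ :=
      compE_correct e K off s σ le_rfl hv.1 hag hcb hok hpc h1
    have hget := h2.get
    have hget' := h2.tail.get
    have hst : next P s₁ = some ⟨off + e.size + 1, s₁.reg, s₁.mem, s₁.coins⟩ := by
      simp only [next, p₁, hget, v₁, if_neg he.ne']
    have hst' : next P ⟨off + e.size + 1, s₁.reg, s₁.mem, s₁.coins⟩ =
        some ⟨off + e.size + 2, s₁.reg, s₁.mem, s₁.coins⟩ := by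
      simp only [next, hget', v₁, if_neg (not_lt.mpr he.le)]
    have hag₁ : Agree K ⟨off + e.size + 2, s₁.reg, s₁.mem, s₁.coins⟩ σ :=
      ⟨fun r hr => (f₁ r hr).trans (hag.1 r hr), m₁.trans hag.2⟩
    have h3' : At P (off + e.size + 2) (compC K (off + e.size + 2) p) := h3
    obtain ⟨s₂, r₂, p₂, g₂, c₂⟩ := ih₁ (off + e.size + 2)
      ⟨off + e.size + 2, s₁.reg, s₁.mem, s₁.coins⟩ (β₂ ++ γ) hv.2 hag₁ r₁.bdd rfl
      (by rw [c₁, hco, List.append_assoc]) h3'
    have hget4 := h4.get
    have hpc2 : s₂.pc = off + e.size + 2 + (compC K (off + e.size + 2) p).length := by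
      rw [p₂]
    have hst2 : next P s₂ = some ⟨off, s₂.reg, s₂.mem, s₂.coins⟩ := by
      simp only [next, hpc2, hget4]
    obtain ⟨s₃, r₃, p₃, g₃, c₃⟩ := ih₂ off ⟨off, s₂.reg, s₂.mem, s₂.coins⟩ γ hv ⟨g₂.1, g₂.2⟩
      r₂.bdd rfl c₂ hat'
    refine ⟨s₃, ((((r₁.trans (Reach.one r₁.bdd (nc (by rw [p₁]; exact hget) (by simp)) ?_
      hst)).trans (Reach.one ?_ (nc hget' (by simp)) ?_ hst')).trans r₂).trans
      (Reach.one r₂.bdd (nc (by rw [hpc2]; exact hget4) (by simp)) ?_ hst2)).trans r₃, p₃, g₃, c₃⟩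
    · exact r₁.bdd
    · exact r₁.bdd
    · exact r₁.bdd
    · exact r₂.bdd

/-- the initial state of a structured program -/
def init (x : List ℤ) : St := ⟨fun i => if i = 0 then (x.length : ℤ) else 0, fun i => x.getD i 0⟩

/-- The structured run, transported to the flat machine. -/
theorem halts_of_exec {W K : ℕ} {c : Cmd} {x : List ℤ} {β : List Bool} {σ' : St} {t : ℕ}
    (hK : 0 < K) (hW : 1 ≤ W) (h : Exec W c (init x) β t σ')
    (hv : c.vars K) (hlen : x.length ≤ W) (hx : ∀ a ∈ x, a.natAbs ≤ W) :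
    ∃ T, T ≤ t * (1 + Nat.size W) ^ 2 ∧ HaltsOn (compC K 0 c) x β T (σ'.reg 0) := by
  have hcb : CB W (initial x β) := by
    intro i
    constructor
    · simp only [initial]
      split_ifs
      · simpa using hlen
      · simp
    · simp only [initial]
      rw [List.getD_eq_getElem?_getD]
      rcases hget : x[i]? with _ | a
      · simp
      · simpa using hx a (List.mem_of_getElem? hget)
  have hat : At (compC K 0 c) 0 (compC K 0 c) := ⟨[], [], by simp, rfl⟩
  obtain ⟨s', ⟨⟨T, hT, r⟩, -⟩, p, g, c'⟩ := compC_correct hW h 0 (initial x β) [] hv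
    ⟨fun _ _ => rfl, rfl⟩ hcb rfl (by simp [initial]) hat
  exact ⟨T, hT, s', r.runsTo (by rw [p]; omega), c', g.1 0 hK⟩

end Pool.Agent.Lib.PRam
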