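import Pool.Agent.Lib.PRam.Lang

namespace Pool.Agent.Lib.PRam

@[simp] theorem St.set_mem (σ : St) (d : ℕ) (v : ℤ) : (σ.set d v).mem = σ.mem := rfl
@[simp] theorem St.put_reg (σ : St) (a : ℕ) (v : ℤ) : (σ.put a v).reg = σ.reg := rfl
@[simp] theorem St.set_reg (σ : St) (d : ℕ) (v : ℤ) (r : ℕ) :
    (σ.set d v).reg r = if r = d then v else σ.reg r := by
  simp [St.set, Function.update_apply]
@[simp] theorem St.put_mem (σ : St) (a : ℕ) (v : ℤ) (b : ℕ) :
    (σ.put a v).mem b = if b = a then v else σ.mem b := by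
  simp [St.put, Function.update_apply]
@[simp] theorem init_reg (x : List ℤ) (i : ℕ) :
    (init x).reg i = if i = 0 then (x.length : ℤ) else 0 := rfl
@[simp] theorem init_mem (x : List ℤ) (i : ℕ) : (init x).mem i = x.getD i 0 := rfl

/-- Started in `σ`, the command `c` uses the coin flips `β` and terminates in a state satisfying `Q`
(all values at most `W`). -/
def Term (W : ℕ) (c : Cmd) (σ : St) (β : List Bool) (Q : St → Prop) : Prop :=
  ∃ t σ', Exec W c σ β t σ' ∧ Q σ'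

/-- The same with a time bound. -/
def Run (W : ℕ) (c : Cmd) (σ : St) (β : List Bool) (T : ℕ) (Q : St → Prop) : Prop :=
  ∃ t σ', t ≤ T ∧ Exec W c σ β t σ' ∧ Q σ'

variable {W : ℕ} {σ : St} {Q : St → Prop}

theorem Term.mono {c : Cmd} {β : List Bool} {Q' : St → Prop} (h : Term W c σ β Q)
    (hQ : ∀ σ', Q σ' → Q' σ') : Term W c σ β Q' := by
  obtain ⟨t, σ', h, q⟩ := h
  exact ⟨t, σ', h, hQ _ q⟩

theorem Run.mono {c : Cmd} {β : List Bool} {T T' : ℕ} {Q' : St → Prop} (h : Run W c σ β T Q)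
    (hT : T ≤ T') (hQ : ∀ σ', Q σ' → Q' σ') : Run W c σ β T' Q' := by
  obtain ⟨t, σ', ht, h, q⟩ := h
  exact ⟨t, σ', ht.trans hT, h, hQ _ q⟩

theorem Term.skip (h : Q σ) : Term W .skip σ [] Q := ⟨_, _, .skip σ, h⟩

theorem Term.assign {d : ℕ} {e : Expr} (h : e.ok W σ) (hQ : Q (σ.set d (e.eval σ))) :
    Term W (.assign d e) σ [] Q := ⟨_, _, .assign σ d e h, hQ⟩

theorem Term.store {a v : Expr} (ha : a.ok W σ) (hv : v.ok W σ)
    (hQ : Q (σ.put (a.eval σ).toNat (v.eval σ))) : Term W (.store a v) σ [] Q :=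
  ⟨_, _, .store σ a v ha hv, hQ⟩

theorem Term.coin {d : ℕ} {b : Bool} (hQ : Q (σ.set d (if b then 1 else 0))) :
    Term W (.coin d) σ [b] Q := ⟨_, _, .coin σ d b, hQ⟩

theorem Term.seq {p q : Cmd} {β₁ β₂ : List Bool}
    (h : Term W p σ β₁ (fun σ₁ => Term W q σ₁ β₂ Q)) : Term W (.seq p q) σ (β₁ ++ β₂) Q := by
  obtain ⟨t₁, σ₁, h₁, t₂, σ₂, h₂, hQ⟩ := h
  exact ⟨_, _, .seq h₁ h₂, hQ⟩

/-- first command deterministic -/
theorem Term.seqL {p q : Cmd} {β : List Bool}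
    (h : Term W p σ [] (fun σ₁ => Term W q σ₁ β Q)) : Term W (.seq p q) σ β Q :=
  Term.seq h

/-- second command deterministic -/
theorem Term.seqR {p q : Cmd} {β : List Bool}
    (h : Term W p σ β (fun σ₁ => Term W q σ₁ [] Q)) : Term W (.seq p q) σ β Q := by
  simpa using Term.seq h

theorem Term.ite {e : Expr} {p q : Cmd} {β : List Bool} (h : e.ok W σ)
    (hp : e.eval σ ≠ 0 → Term W p σ β Q) (hq : e.eval σ = 0 → Term W q σ β Q) :
    Term W (.ite e p q) σ β Q := by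
  by_cases he : e.eval σ = 0
  · obtain ⟨t, σ', hx, hQ⟩ := hq he
    exact ⟨_, _, .iteF h he hx, hQ⟩
  · obtain ⟨t, σ', hx, hQ⟩ := hp he
    exact ⟨_, _, .iteT h he hx, hQ⟩

theorem Term.ifpos {e : Expr} {p q : Cmd} {β : List Bool} (h : e.ok W σ)
    (hp : 0 < e.eval σ → Term W p σ β Q) (hq : e.eval σ ≤ 0 → Term W q σ β Q) :
    Term W (.ifpos e p q) σ β Q := by
  by_cases he : e.eval σ ≤ 0
  · obtain ⟨t, σ', hx, hQ⟩ := hq he
    exact ⟨_, _, .ifposF h he hx, hQ⟩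
  · obtain ⟨t, σ', hx, hQ⟩ := hp (not_le.mp he)
    exact ⟨_, _, .ifposT h (not_le.mp he) hx, hQ⟩

def Cmd.loopFree : Cmd → Prop
  | .skip => True
  | .assign _ _ => True
  | .store _ _ => True
  | .coin _ => True
  | .seq p q => p.loopFree ∧ q.loopFree
  | .ite _ p q => p.loopFree ∧ q.loopFree
  | .ifpos _ p q => p.loopFree ∧ q.loopFree
  | .loop _ _ => False
  | .whilepos _ _ => False

def Cmd.cost : Cmd → ℕ
  | .skip => 0
  | .assign _ e => e.size + 2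
  | .store a v => a.size + v.size + 1
  | .coin _ => 1
  | .seq p q => p.cost + q.cost
  | .ite e p q => e.size + 2 + p.cost + q.cost
  | .ifpos e p q => e.size + 3 + p.cost + q.cost
  | .loop _ _ => 0
  | .whilepos _ _ => 0

theorem Exec.le_cost {c : Cmd} {σ σ' : St} {β : List Bool} {t : ℕ} (h : Exec W c σ β t σ') :
    c.loopFree → t ≤ c.cost := by
  induction h with
  | skip σ => exact fun _ => le_rfl
  | assign => exact fun _ => le_rfl
  | store => exact fun _ => le_rfl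
  | coin => exact fun _ => le_rfl
  | seq _ _ ih₁ ih₂ => intro hl; have := ih₁ hl.1; have := ih₂ hl.2; simp only [Cmd.cost]; omega
  | iteT _ _ _ ih => intro hl; have := ih hl.1; simp only [Cmd.cost]; omega
  | iteF _ _ _ ih => intro hl; have := ih hl.2; simp only [Cmd.cost]; omega
  | ifposT _ _ _ ih => intro hl; have := ih hl.1; simp only [Cmd.cost]; omega
  | ifposF _ _ _ ih => intro hl; have := ih hl.2; simp only [Cmd.cost]; omega
  | loopF => exact fun h => h.elim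
  | loopT => exact fun h => h.elim
  | whileposF => exact fun h => h.elim
  | whileposT => exact fun h => h.elim

theorem Term.run {c : Cmd} {β : List Bool} (h : Term W c σ β Q) (hl : c.loopFree) :
    Run W c σ β c.cost Q := by
  obtain ⟨t, σ', hx, hQ⟩ := h
  exact ⟨t, σ', hx.le_cost hl, hx, hQ⟩

theorem Run.term {c : Cmd} {β : List Bool} {T : ℕ} (h : Run W c σ β T Q) : Term W c σ β Q := by
  obtain ⟨t, σ', _, hx, hQ⟩ := h
  exact ⟨t, σ', hx, hQ⟩

theorem Run.skip {T : ℕ} (h : Q σ) : Run W .skip σ [] T Q := ⟨_, _, Nat.zero_le _, .skip σ, h⟩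

theorem Run.seq {p q : Cmd} {β₁ β₂ : List Bool} {T₁ T₂ T : ℕ}
    (h : Run W p σ β₁ T₁ (fun σ₁ => Run W q σ₁ β₂ T₂ Q)) (hT : T₁ + T₂ ≤ T) :
    Run W (.seq p q) σ (β₁ ++ β₂) T Q := by
  obtain ⟨t₁, σ₁, ht₁, h₁, t₂, σ₂, ht₂, h₂, hQ⟩ := h
  exact ⟨_, _, by omega, .seq h₁ h₂, hQ⟩

/-- first command deterministic -/
theorem Run.seqL {p q : Cmd} {β : List Bool} {T₁ T₂ T : ℕ}
    (h : Run W p σ [] T₁ (fun σ₁ => Run W q σ₁ β T₂ Q)) (hT : T₁ + T₂ ≤ T) :
    Run W (.seq p q) σ β T Q := Run.seq h hT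

/-- second command deterministic -/
theorem Run.seqR {p q : Cmd} {β : List Bool} {T₁ T₂ T : ℕ}
    (h : Run W p σ β T₁ (fun σ₁ => Run W q σ₁ [] T₂ Q)) (hT : T₁ + T₂ ≤ T) :
    Run W (.seq p q) σ β T Q := by
  simpa using Run.seq h hT

theorem Run.ite {e : Expr} {p q : Cmd} {β : List Bool} {T' T : ℕ} (h : e.ok W σ)
    (hp : e.eval σ ≠ 0 → Run W p σ β T' Q) (hq : e.eval σ = 0 → Run W q σ β T' Q)
    (hT : e.size + 2 + T' ≤ T) : Run W (.ite e p q) σ β T Q := by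
  by_cases he : e.eval σ = 0
  · obtain ⟨t, σ', ht, hx, hQ⟩ := hq he
    exact ⟨_, _, by omega, .iteF h he hx, hQ⟩
  · obtain ⟨t, σ', ht, hx, hQ⟩ := hp he
    exact ⟨_, _, by omega, .iteT h he hx, hQ⟩

theorem Run.ifpos {e : Expr} {p q : Cmd} {β : List Bool} {T' T : ℕ} (h : e.ok W σ)
    (hp : 0 < e.eval σ → Run W p σ β T' Q) (hq : e.eval σ ≤ 0 → Run W q σ β T' Q)
    (hT : e.size + 3 + T' ≤ T) : Run W (.ifpos e p q) σ β T Q := by
  by_cases he : e.eval σ ≤ 0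
  · obtain ⟨t, σ', ht, hx, hQ⟩ := hq he
    exact ⟨_, _, by omega, .ifposF h he hx, hQ⟩
  · obtain ⟨t, σ', ht, hx, hQ⟩ := hp (not_le.mp he)
    exact ⟨_, _, by omega, .ifposT h (not_le.mp he) hx, hQ⟩

/-- Loop rule with at most `k` iterations, each of cost at most `B`; the invariant `I k γ σ` speaks
about the number `k` of iterations still allowed and the coin flips `γ` still to be used. -/
theorem Run.loopC {e : Expr} {p : Cmd} {β : List Bool} (I : ℕ → List Bool → St → Prop) (B k : ℕ)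
    (hI : I k β σ) (hok : ∀ k γ σ, I k γ σ → e.ok W σ)
    (h0 : ∀ k γ σ, I k γ σ → e.eval σ = 0 → γ = [])
    (hs : ∀ k γ σ, I k γ σ → e.eval σ ≠ 0 →
      ∃ k' γ₁ γ₂, k = k' + 1 ∧ γ = γ₁ ++ γ₂ ∧ Run W p σ γ₁ B (I k' γ₂)) :
    Run W (.loop e p) σ β (k * (e.size + 2 + B) + (e.size + 1))
      (fun σ' => e.eval σ' = 0 ∧ ∃ k', I k' [] σ') := by
  induction k using Nat.strong_induction_on generalizing σ β with
  | _ k ih =>
    by_cases he : e.eval σ = 0
    · obtain rfl := h0 k β σ hI he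
      exact ⟨_, _, by omega, .loopF (hok k _ σ hI) he, he, k, hI⟩
    · obtain ⟨k', γ₁, γ₂, rfl, rfl, t, σ', ht, hx, hI'⟩ := hs k β σ hI he
      obtain ⟨t₂, σ₂, ht₂, hx₂, hQ⟩ := ih k' (by omega) hI'
      refine ⟨_, _, ?_, .loopT (hok _ _ σ hI) he hx hx₂, hQ⟩
      rw [Nat.add_mul, Nat.one_mul]
      omega

/-- Deterministic loop rule with at most `k` iterations, each of cost at most `B`. -/
theorem Run.loop {e : Expr} {p : Cmd} (I : ℕ → St → Prop) (B k : ℕ) (hI : I k σ)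
    (hok : ∀ k σ, I k σ → e.ok W σ)
    (hs : ∀ k σ, I k σ → e.eval σ ≠ 0 → ∃ k', k = k' + 1 ∧ Run W p σ [] B (I k')) :
    Run W (.loop e p) σ [] (k * (e.size + 2 + B) + (e.size + 1))
      (fun σ' => e.eval σ' = 0 ∧ ∃ k', I k' σ') := by
  refine (Run.loopC (β := []) (fun k γ σ => γ = [] ∧ I k σ) B k ⟨rfl, hI⟩
    (fun k γ σ h => hok k σ h.2) (fun k γ σ h _ => h.1) ?_).mono le_rfl ?_
  · rintro k γ σ ⟨rfl, h⟩ he
    obtain ⟨k', hk, hr⟩ := hs k σ h he
    exact ⟨k', [], [], hk, rfl, hr.mono le_rfl fun _ h => ⟨rfl, h⟩⟩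
  · rintro σ' ⟨h, k', -, h'⟩
    exact ⟨h, k', h'⟩

/-- Loop rule: one iteration for each block `b` of `bs`, using the coin flips in `b`. -/
theorem Run.loopBlocks {e : Expr} {p : Cmd} (I : List (List Bool) → St → Prop) (B : ℕ)
    (bs : List (List Bool)) (hI : I bs σ) (hok : ∀ bs σ, I bs σ → e.ok W σ)
    (h0 : ∀ bs σ, I bs σ → (e.eval σ = 0 ↔ bs = []))
    (hs : ∀ b bs σ, I (b :: bs) σ → Run W p σ b B (I bs)) :
    Run W (.loop e p) σ bs.flatten (bs.length * (e.size + 2 + B) + (e.size + 1))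
      (fun σ' => e.eval σ' = 0 ∧ I [] σ') := by
  induction bs generalizing σ with
  | nil =>
    exact ⟨_, _, by simp, .loopF (hok _ σ hI) ((h0 _ _ hI).mpr rfl), (h0 _ _ hI).mpr rfl, hI⟩
  | cons b bs ih =>
    obtain ⟨t, σ', ht, hx, hI'⟩ := hs b bs σ hI
    obtain ⟨t₂, σ₂, ht₂, hx₂, hQ⟩ := ih hI'
    refine ⟨_, _, ?_, .loopT (hok _ σ hI) (fun h => by simpa using (h0 _ _ hI).mp h) hx hx₂, hQ⟩
    rw [List.length_cons, Nat.add_mul, Nat.one_mul]
    omega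

/-- `whilepos` rule, general form (see `Run.loopC`). -/
theorem Run.whileposC {e : Expr} {p : Cmd} {β : List Bool} (I : ℕ → List Bool → St → Prop)
    (B k : ℕ) (hI : I k β σ) (hok : ∀ k γ σ, I k γ σ → e.ok W σ)
    (h0 : ∀ k γ σ, I k γ σ → e.eval σ ≤ 0 → γ = [])
    (hs : ∀ k γ σ, I k γ σ → 0 < e.eval σ →
      ∃ k' γ₁ γ₂, k = k' + 1 ∧ γ = γ₁ ++ γ₂ ∧ Run W p σ γ₁ B (I k' γ₂)) :
    Run W (.whilepos e p) σ β (k * (e.size + 3 + B) + (e.size + 2))
      (fun σ' => e.eval σ' ≤ 0 ∧ ∃ k', I k' [] σ') := by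
  induction k using Nat.strong_induction_on generalizing σ β with
  | _ k ih =>
    by_cases he : e.eval σ ≤ 0
    · obtain rfl := h0 k β σ hI he
      exact ⟨_, _, by omega, .whileposF (hok k _ σ hI) he, he, k, hI⟩
    · obtain ⟨k', γ₁, γ₂, rfl, rfl, t, σ', ht, hx, hI'⟩ := hs k β σ hI (not_le.mp he)
      obtain ⟨t₂, σ₂, ht₂, hx₂, hQ⟩ := ih k' (by omega) hI'
      refine ⟨_, _, ?_, .whileposT (hok _ _ σ hI) (not_le.mp he) hx hx₂, hQ⟩
      rw [Nat.add_mul, Nat.one_mul]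
      omega

/-- Deterministic `whilepos` rule. -/
theorem Run.whilepos {e : Expr} {p : Cmd} (I : ℕ → St → Prop) (B k : ℕ) (hI : I k σ)
    (hok : ∀ k σ, I k σ → e.ok W σ)
    (hs : ∀ k σ, I k σ → 0 < e.eval σ → ∃ k', k = k' + 1 ∧ Run W p σ [] B (I k')) :
    Run W (.whilepos e p) σ [] (k * (e.size + 3 + B) + (e.size + 2))
      (fun σ' => e.eval σ' ≤ 0 ∧ ∃ k', I k' σ') := by
  refine (Run.whileposC (β := []) (fun k γ σ => γ = [] ∧ I k σ) B k ⟨rfl, hI⟩
    (fun k γ σ h => hok k σ h.2) (fun k γ σ h _ => h.1) ?_).mono le_rfl ?_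
  · rintro k γ σ ⟨rfl, h⟩ he
    obtain ⟨k', hk, hr⟩ := hs k σ h he
    exact ⟨k', [], [], hk, rfl, hr.mono le_rfl fun _ h => ⟨rfl, h⟩⟩
  · rintro σ' ⟨h, k', -, h'⟩
    exact ⟨h, k', h'⟩

/-- `whilepos` rule: one iteration for each block `b` of `bs`, using the coin flips in `b`. -/
theorem Run.whileposBlocks {e : Expr} {p : Cmd} (I : List (List Bool) → St → Prop) (B : ℕ)
    (bs : List (List Bool)) (hI : I bs σ) (hok : ∀ bs σ, I bs σ → e.ok W σ)
    (h0 : ∀ bs σ, I bs σ → (e.eval σ ≤ 0 ↔ bs = []))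
    (hs : ∀ b bs σ, I (b :: bs) σ → Run W p σ b B (I bs)) :
    Run W (.whilepos e p) σ bs.flatten (bs.length * (e.size + 3 + B) + (e.size + 2))
      (fun σ' => e.eval σ' ≤ 0 ∧ I [] σ') := by
  induction bs generalizing σ with
  | nil =>
    exact ⟨_, _, by simp, .whileposF (hok _ σ hI) ((h0 _ _ hI).mpr rfl), (h0 _ _ hI).mpr rfl, hI⟩
  | cons b bs ih =>
    obtain ⟨t, σ', ht, hx, hI'⟩ := hs b bs σ hI
    obtain ⟨t₂, σ₂, ht₂, hx₂, hQ⟩ := ih hI'
    refine ⟨_, _, ?_, .whileposT (hok _ σ hI)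
      (not_le.mp fun h => by simpa using (h0 _ _ hI).mp h) hx hx₂, hQ⟩
    rw [List.length_cons, Nat.add_mul, Nat.one_mul]
    omega

def iter : ℕ → (ℕ → Cmd) → Cmd
  | 0, _ => .skip
  | k + 1, f => .seq (iter k f) (f k)

theorem Term.iter {K : ℕ} {f : ℕ → Cmd} (I : ℕ → St → Prop) (hI : I 0 σ)
    (hs : ∀ k < K, ∀ σ, I k σ → Term W (f k) σ [] (I (k + 1))) :
    Term W (iter K f) σ [] (I K) := by
  induction K with
  | zero => exact Term.skip hI
  | succ K ih =>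
    exact Term.seqL ((ih (fun k hk => hs k (by omega))).mono fun σ' h => hs K (by omega) σ' h)

theorem iter_loopFree {K : ℕ} {f : ℕ → Cmd} (h : ∀ k, (f k).loopFree) : (iter K f).loopFree := by
  induction K with
  | zero => trivial
  | succ K ih => exact ⟨ih, h K⟩

theorem iter_vars {K n : ℕ} {f : ℕ → Cmd} (h : ∀ k, (f k).vars n) : (iter K f).vars n := by
  induction K with
  | zero => trivial
  | succ K ih => exact ⟨ih, h K⟩

def sw (e : Expr) : ℕ → (ℕ → Cmd) → Cmd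
  | 0, _ => .skip
  | k + 1, f => .ite (.sub e (.lit k)) (sw e k f) (f k)

theorem Term.sw {K : ℕ} {f : ℕ → Cmd} {e : Expr} {β : List Bool} {n : ℕ} (he : e.ok W σ)
    (hK : K ≤ W) (hn : e.eval σ = n) (hle : n < K) (h : Term W (f n) σ β Q) :
    Term W (sw e K f) σ β Q := by
  induction K with
  | zero => omega
  | succ K ih =>
    refine Term.ite ⟨he, ?_, ?_⟩ (fun h0 => ?_) (fun h0 => ?_)
    · show (K : ℤ).natAbs ≤ W; omega
    · show (e.eval σ - (K : ℤ)).natAbs ≤ W; rw [hn]; omega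
    · have h0 : e.eval σ - (K : ℤ) ≠ 0 := h0
      exact ih (by omega) (by omega)
    · have h0 : e.eval σ - (K : ℤ) = 0 := h0
      have : n = K := by omega
      rwa [this] at h

theorem sw_loopFree {K : ℕ} {e : Expr} {f : ℕ → Cmd} (h : ∀ k, (f k).loopFree) :
    (sw e K f).loopFree := by
  induction K with
  | zero => trivial
  | succ K ih => exact ⟨ih, h K⟩

theorem sw_vars {K n : ℕ} {e : Expr} {f : ℕ → Cmd} (he : e.vars n) (h : ∀ k, (f k).vars n) :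
    (sw e K f).vars n := by
  induction K with
  | zero => trivial
  | succ K ih => exact ⟨⟨he, trivial⟩, ih, h K⟩

/-- Transport of a run to the flat machine. -/
theorem Run.halts {W K : ℕ} {c : Cmd} {x : List ℤ} {β : List Bool} {T : ℕ} {Q : St → Prop}
    (hK : 0 < K) (hW : 1 ≤ W) (h : Run W c (init x) β T Q)
    (hv : c.vars K) (hlen : x.length ≤ W) (hx : ∀ a ∈ x, a.natAbs ≤ W) :
    ∃ T' σ', T' ≤ T * (1 + Nat.size W) ^ 2 ∧ HaltsOn (compC K 0 c) x β T' (σ'.reg 0) ∧ Q σ' := by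
  obtain ⟨t, σ', ht, hx', hQ⟩ := h
  obtain ⟨T', h1, h2⟩ := halts_of_exec hK hW hx' hv hlen hx
  exact ⟨T', σ', h1.trans (Nat.mul_le_mul_right _ ht), h2, hQ⟩

end Pool.Agent.Lib.PRam
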